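import Pool.Agent.Helper13.MP.Defs

/-!
# MP-DK (helper79): the densities of the primes with a root

Two applications of the Frobenius density theorem `M.StmtW3`.
-/

set_option autoImplicit false

namespace Pool.Agent.MP

open VC IntermediateField NumberField IsDedekindDomain Pool.Agent.SC Pool.Agent.L
open Pool.Agent.HG (Pr nm IsOdd Ctx Gd)

noncomputable section

open scoped Classical in
/-- the primes whose Frobenius element is in `C` -/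
private theorem dk_gen (hW3 : M.StmtW3) {k L : Type} [Field k] [NumberField k] [Field L] [NumberField L] [Algebra k L]
    [IsGalois k L] {f : Polynomial k} (X : Ctx k L f) (C : Set (L ≃ₐ[k] L))
    (hz : ∀ σ ∈ C, ∀ τ : L ≃ₐ[k] L, Subgroup.zpowers τ = Subgroup.zpowers σ → τ ∈ C)
    (hc : ∀ σ ∈ C, ∀ g : L ≃ₐ[k] L, g * σ * g⁻¹ ∈ C) (B : ℕ → Finset (Pr k)) (hB : ∀ x v, v ∈ B x ↔ nm v ≤ x) :
    ∃ C₁ : ℝ, ∀ x : ℕ, 2 ≤ x → |∑ v ∈ (B x).filter (fun v => X.F v ∈ C), (1 : ℝ) / nm v -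
      ((Nat.card C : ℝ) / Nat.card (L ≃ₐ[k] L)) * Real.log (Real.log x)| ≤ C₁ := by
  obtain ⟨C₀, Bad, Q, hfin, hQ, hsum⟩ := hW3 k L C hz hc B hB
  refine ⟨C₀ + ∑ v ∈ hfin.toFinset, (1 : ℝ) / nm v, fun x hx => ?_⟩
  have hQ' : ∀ v ∉ Bad, (v ∈ Q ↔ X.F v ∈ C) := fun v hv => hQ v hv (X.P v) (X.F v) (X.comap v) (X.frob v)
  have h1 : |∑ v ∈ (B x).filter (fun v => X.F v ∈ C), (1 : ℝ) / nm v - ∑ v ∈ (B x).filter (· ∈ Q), (1 : ℝ) / nm v| ≤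
      ∑ v ∈ hfin.toFinset, (1 : ℝ) / nm v := by
    rw [Finset.sum_filter, Finset.sum_filter, ← Finset.sum_sub_distrib]
    refine (Finset.abs_sum_le_sum_abs _ _).trans ?_
    have h2 : ∀ v ∈ B x, |(if X.F v ∈ C then (1 : ℝ) / nm v else 0) - (if v ∈ Q then (1 : ℝ) / nm v else 0)| ≤
        if v ∈ Bad then (1 : ℝ) / nm v else 0 := by
      intro v _
      have h0 : (0 : ℝ) ≤ 1 / nm v := by positivity
      by_cases hv : v ∈ Bad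
      · rw [if_pos hv]
        split_ifs <;> simp
      · rw [if_neg hv]
        have := hQ' v hv
        by_cases h : v ∈ Q
        · rw [if_pos h, if_pos (this.1 h), sub_self, abs_zero]
        · rw [if_neg h, if_neg (fun h' => h (this.2 h')), sub_self, abs_zero]
    refine (Finset.sum_le_sum h2).trans ?_
    rw [← Finset.sum_filter]
    refine Finset.sum_le_sum_of_subset_of_nonneg ?_ fun v _ _ => by positivity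
    intro v hv
    rw [Finset.mem_filter] at hv
    exact hfin.mem_toFinset.2 hv.2
  have h3 := hsum x hx
  have h4 : ∑ v ∈ (B x).filter (fun v => X.F v ∈ C), (1 : ℝ) / nm v -
      ((Nat.card C : ℝ) / Nat.card (L ≃ₐ[k] L)) * Real.log (Real.log x) =
      (∑ v ∈ (B x).filter (· ∈ Q), (1 : ℝ) / nm v - ((Nat.card C : ℝ) / Nat.card (L ≃ₐ[k] L)) * Real.log (Real.log x)) +
      (∑ v ∈ (B x).filter (fun v => X.F v ∈ C), (1 : ℝ) / nm v - ∑ v ∈ (B x).filter (· ∈ Q), (1 : ℝ) / nm v) := by ring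
  rw [h4]
  exact (abs_add_le _ _).trans (add_le_add h3 h1)

private theorem dk_gen' (hW3 : M.StmtW3) {k L : Type} [Field k] [NumberField k] [Field L] [NumberField L] [Algebra k L]
    [IsGalois k L] {f : Polynomial k} (X : Ctx k L f) (C : Set (L ≃ₐ[k] L))
    (hz : ∀ σ ∈ C, ∀ τ : L ≃ₐ[k] L, Subgroup.zpowers τ = Subgroup.zpowers σ → τ ∈ C)
    (hc : ∀ σ ∈ C, ∀ g : L ≃ₐ[k] L, g * σ * g⁻¹ ∈ C) (B : ℕ → Finset (Pr k)) (hB : ∀ x v, v ∈ B x ↔ nm v ≤ x) :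
    ∃ C₁ : ℝ, ∀ x : ℕ, 2 ≤ x → ∀ S : Finset (Pr k), (∀ v, v ∈ S ↔ v ∈ B x ∧ X.F v ∈ C) → |∑ v ∈ S, (1 : ℝ) / nm v -
      ((Nat.card C : ℝ) / Nat.card (L ≃ₐ[k] L)) * Real.log (Real.log x)| ≤ C₁ := by
  classical
  obtain ⟨C₁, h⟩ := dk_gen hW3 X C hz hc B hB
  refine ⟨C₁, fun x hx S hS => ?_⟩
  have h1 := h x hx
  have e : S = (B x).filter (fun v => X.F v ∈ C) := by
    ext v
    rw [hS, Finset.mem_filter]
  rw [e]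
  convert h1

private theorem dk_zp {k L : Type} [Field k] [Field L] [Algebra k L] {σ τ : L ≃ₐ[k] L} {θ : L}
    (h : Subgroup.zpowers τ = Subgroup.zpowers σ) (hs : σ θ = θ) : τ θ = θ := by
  have h1 : τ ∈ Subgroup.zpowers σ := by
    rw [← h]
    exact Subgroup.mem_zpowers τ
  have h2 : Subgroup.zpowers σ ≤ MulAction.stabilizer (L ≃ₐ[k] L) θ := by
    rw [Subgroup.zpowers_le]
    exact hs
  exact h2 h1

private theorem dk_root {k L : Type} [Field k] [NumberField k] [Field L] [NumberField L] [Algebra k L]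
    [IsGalois k L] {f : Polynomial k} (X : Ctx k L f) {θ : L} (hθ : θ ∈ X.Ω) (g : L ≃ₐ[k] L) : g θ ∈ X.Ω := by
  rw [X.mem_Ω] at hθ ⊢
  have hf : f ≠ 0 := X.sepf.ne_zero
  rw [Polynomial.mem_rootSet_of_ne hf] at hθ ⊢
  have h1 := Polynomial.aeval_algHom_apply (g : L →ₐ[k] L) θ f
  rw [hθ, map_zero] at h1
  exact h1

private theorem dk_inv {k L : Type} [Field k] [Field L] [Algebra k L] (g : L ≃ₐ[k] L) (θ : L) : g⁻¹ (g θ) = θ := by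
  change (g⁻¹ * g) θ = θ
  rw [inv_mul_cancel]
  rfl

theorem dk : StmtDK := by
  classical
  intro hW3 k L _ _ _ _ _ _ f X _ B hB
  refine ⟨?_, ?_⟩
  · have hz : ∀ σ ∈ {σ : L ≃ₐ[k] L | ∃ θ ∈ X.Ω, σ θ = θ}, ∀ τ : L ≃ₐ[k] L, Subgroup.zpowers τ = Subgroup.zpowers σ →
        τ ∈ {σ : L ≃ₐ[k] L | ∃ θ ∈ X.Ω, σ θ = θ} := by
      rintro σ ⟨θ, hθ, hs⟩ τ hτ
      exact ⟨θ, hθ, dk_zp hτ hs⟩
    have hc : ∀ σ ∈ {σ : L ≃ₐ[k] L | ∃ θ ∈ X.Ω, σ θ = θ}, ∀ g : L ≃ₐ[k] L, g * σ * g⁻¹ ∈ {σ : L ≃ₐ[k] L | ∃ θ ∈ X.Ω, σ θ = θ} := by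
      rintro σ ⟨θ, hθ, hs⟩ g
      refine ⟨g θ, dk_root X hθ g, ?_⟩
      change g (σ (g⁻¹ (g θ))) = g θ
      rw [dk_inv, hs]
    obtain ⟨C₁, hC₁⟩ := dk_gen' hW3 X _ hz hc B hB
    refine ⟨C₁, fun x hx => hC₁ x hx _ fun v => ?_⟩
    rw [Finset.mem_filter]
    refine and_congr_right fun _ => ?_
    constructor
    · rintro ⟨θ, hθ⟩
      exact ⟨θ, (Finset.mem_filter.1 hθ).1, (Finset.mem_filter.1 hθ).2⟩
    · rintro ⟨θ, hθ, h⟩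
      exact ⟨θ, Finset.mem_filter.2 ⟨hθ, h⟩⟩
  · intro J hJ hex
    have hz : ∀ σ ∈ {σ : L ≃ₐ[k] L | (∃ θ ∈ X.Ω, σ θ = θ) ∧ ∀ θ ∈ J, σ θ ≠ θ}, ∀ τ : L ≃ₐ[k] L, Subgroup.zpowers τ = Subgroup.zpowers σ →
        τ ∈ {σ : L ≃ₐ[k] L | (∃ θ ∈ X.Ω, σ θ = θ) ∧ ∀ θ ∈ J, σ θ ≠ θ} := by
      rintro σ ⟨⟨θ, hθ, hs⟩, h'⟩ τ hτ
      exact ⟨⟨θ, hθ, dk_zp hτ hs⟩, fun θ' hθ' hcon => h' θ' hθ' (dk_zp hτ.symm hcon)⟩
    have hc : ∀ σ ∈ {σ : L ≃ₐ[k] L | (∃ θ ∈ X.Ω, σ θ = θ) ∧ ∀ θ ∈ J, σ θ ≠ θ}, ∀ g : L ≃ₐ[k] L,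
        g * σ * g⁻¹ ∈ {σ : L ≃ₐ[k] L | (∃ θ ∈ X.Ω, σ θ = θ) ∧ ∀ θ ∈ J, σ θ ≠ θ} := by
      rintro σ ⟨⟨θ, hθ, hs⟩, h'⟩ g
      refine ⟨⟨g θ, dk_root X hθ g, ?_⟩, fun θ' hθ' hcon => ?_⟩
      · change g (σ (g⁻¹ (g θ))) = g θ
        rw [dk_inv, hs]
      · change g (σ (g⁻¹ θ')) = θ' at hcon
        refine h' (g⁻¹ θ') (hJ g⁻¹ θ' hθ') ?_
        have := dk_inv g (σ (g⁻¹ θ'))
        rw [← this, hcon]
    obtain ⟨C₁, hC₁⟩ := dk_gen' hW3 X _ hz hc B hB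
    refine ⟨(Nat.card {σ : L ≃ₐ[k] L | (∃ θ ∈ X.Ω, σ θ = θ) ∧ ∀ θ ∈ J, σ θ ≠ θ} : ℝ) / Nat.card (L ≃ₐ[k] L), C₁, ?_,
      fun x hx => hC₁ x hx _ fun v => ?_⟩
    · obtain ⟨σ, hσ⟩ := hex
      have h1 : 0 < Nat.card {σ : L ≃ₐ[k] L | (∃ θ ∈ X.Ω, σ θ = θ) ∧ ∀ θ ∈ J, σ θ ≠ θ} := by
        have : Nonempty {σ : L ≃ₐ[k] L | (∃ θ ∈ X.Ω, σ θ = θ) ∧ ∀ θ ∈ J, σ θ ≠ θ} := ⟨⟨σ, hσ⟩⟩
        exact Nat.card_pos
      have h2 : 0 < Nat.card (L ≃ₐ[k] L) := Nat.card_pos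
      exact div_pos (by exact_mod_cast h1) (by exact_mod_cast h2)
    · rw [Finset.mem_filter]
      refine and_congr_right fun _ => ?_
      constructor
      · rintro ⟨⟨θ, hθ⟩, h'⟩
        exact ⟨⟨θ, (Finset.mem_filter.1 hθ).1, (Finset.mem_filter.1 hθ).2⟩, h'⟩
      · rintro ⟨⟨θ, hθ, h⟩, h'⟩
        exact ⟨⟨θ, Finset.mem_filter.2 ⟨hθ, h⟩⟩, h'⟩

end

end Pool.Agent.MP
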