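import Pool.Agent.Helper79.MP.LP
import Pool.Agent.Helper97.MP.Hens
import Pool.Agent.Helper22.L.DEN

/-!
# MP, block L1: a branch point fixed by a Frobenius element at `v` gives a point over `k_v`
-/

set_option autoImplicit false

namespace Pool.Agent.MPF

open Polynomial IntermediateField NumberField IsDedekindDomain
open Pool.Agent.HG (Pr nm IsOdd)
open Pool.Agent.Helper22.L (Emb odd_nonunit finite_odd exists_gen phi_nonunit)

/-! ## The residue field of a branch point -/

section gen

variable {k K0 E : Type} [Field k] [CharZero k] [Field K0] [Algebra k K0] [Field E] [Algebra k E]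
  [Algebra.IsAlgebraic k E]

omit [CharZero k] in
theorem ker_iff (P : ValuationSubring K0) (hk : ∀ a : k, algebraMap k K0 a ∈ P) (φ : P →+* E)
    (hφ : ∀ (a : k) (x : P), (x : K0) = algebraMap k K0 a → φ x = algebraMap k E a) (x : P) :
    φ x = 0 ↔ (x : K0) ∈ P.nonunits := by
  refine ⟨fun h => ?_, fun h => phi_nonunit P hk φ hφ x h⟩
  rw [ValuationSubring.coe_mem_nonunits_iff, IsLocalRing.mem_maximalIdeal, mem_nonunits_iff]
  intro hu
  exact (hu.map φ).ne_zero h

/-- a generator of the residue field of `P` which works for all embeddings -/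
theorem gen_all (hF : VC.IsFunctionField k K0) (h : K0) (P : ValuationSubring K0)
    (hex : ∃ φ : P →+* E, Emb k h P φ) :
    ∃ (a : P) (g : k[X]), g.Monic ∧ Irreducible g ∧ ∀ φ : P →+* E, Emb k h P φ →
      aeval (φ a) g = 0 ∧ ∀ x, φ x ∈ k⟮φ a⟯ := by
  obtain ⟨φ, hφ⟩ := hex
  have hk := hφ.1
  obtain ⟨a, ha⟩ : ∃ a : P, ∀ x : P, φ x ∈ k⟮φ a⟯ := by
    obtain ⟨h0, h1 | h1⟩ := odd_nonunit hφ.2.1
    · exact exists_gen hF P hk h0 h1 φ hφ.2.2
    · exact exists_gen hF P hk (inv_ne_zero h0) h1 φ hφ.2.2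
  have hint : IsIntegral k (φ a) := (Algebra.IsAlgebraic.isAlgebraic (φ a)).isIntegral
  refine ⟨a, minpoly k (φ a), minpoly.monic hint, minpoly.irreducible hint, ?_⟩
  intro φ' hφ'
  let a1 : Algebra k P := ((algebraMap k K0).codRestrict P.toSubring hk).toAlgebra
  let ψ : P →ₐ[k] E := { φ with commutes' := fun a => hφ.2.2 a _ rfl }
  let ψ' : P →ₐ[k] E := { φ' with commutes' := fun a => hφ'.2.2 a _ rfl }
  have hker : ∀ x : P, ψ x = 0 → ψ' x = 0 := fun x hx =>
    (ker_iff P hk φ' hφ'.2.2 x).2 ((ker_iff P hk φ hφ.2.2 x).1 hx)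
  constructor
  · have h1 : ψ (aeval a (minpoly k (φ a))) = 0 := by
      rw [← aeval_algHom_apply]
      exact minpoly.aeval k (φ a)
    have h2 := hker _ h1
    rw [← aeval_algHom_apply] at h2
    exact h2
  · intro x
    have h1 : φ x ∈ Algebra.adjoin k {φ a} := by
      rw [← IntermediateField.adjoin_simple_toSubalgebra_of_isAlgebraic hint.isAlgebraic]
      exact ha x
    rw [Algebra.adjoin_singleton_eq_range_aeval] at h1
    obtain ⟨q, hq⟩ := h1
    have h2 : ψ (x - aeval a q) = 0 := by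
      rw [map_sub, ← aeval_algHom_apply, sub_eq_zero]
      exact hq.symm
    have h3 := hker _ h2
    rw [map_sub, ← aeval_algHom_apply, sub_eq_zero] at h3
    have h4 : φ' x = aeval (φ' a) q := h3
    rw [h4]
    refine IntermediateField.algebra_adjoin_le_adjoin k {φ' a} ?_
    rw [Algebra.adjoin_singleton_eq_range_aeval]
    exact ⟨q, rfl⟩

end gen

/-! ## Almost all primes -/

theorem fin_coeff {k : Type} [Field k] [NumberField k] (A : k[X]) :
    {v : Pr k | ∃ i, 1 < v.valuation k (A.coeff i)}.Finite := by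
  have h1 : (⋃ i ∈ A.support, {v : Pr k | 1 < v.valuation k (A.coeff i)}).Finite := by
    refine Set.Finite.biUnion (Finset.finite_toSet _) fun i _ => ?_
    exact HeightOneSpectrum.Support.finite (𝓞 k) (A.coeff i)
  refine h1.subset ?_
  rintro v ⟨i, hi⟩
  simp only [Set.mem_iUnion]
  refine ⟨i, ?_, hi⟩
  rw [mem_support_iff]
  intro h0
  rw [h0, map_zero] at hi
  exact not_lt_zero hi

section resid

variable {k E : Type} [Field k] [NumberField k] [Field E] [Algebra k E]

theorem val_lt {v : Pr k} {O : ValuationSubring E} (hO : Pool.Agent.L.OverV v O) (x : k) :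
    O.valuation (algebraMap k E x) < 1 ↔ v.valuation k x < 1 := by
  by_cases hx : x = 0
  · simp [hx]
  have h1 := hO x⁻¹
  rw [← ValuationSubring.valuation_le_one_iff, map_inv₀, map_inv₀, map_inv₀,
    inv_le_one₀ (zero_lt_iff.2 ((Valuation.ne_zero_iff _).2 ((_root_.map_ne_zero _).2 hx))),
    inv_le_one₀ (zero_lt_iff.2 ((Valuation.ne_zero_iff _).2 hx))] at h1
  rw [← not_le, ← not_le, h1]

/-- an element of `O` whose residue is fixed by the Frobenius map is congruent to an integer of `k` -/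
theorem exists_int (v : Pr k) (O : ValuationSubring E) (hO : Pool.Agent.L.OverV v O) (θ : E)
    (hθ : θ ∈ O) (h : O.valuation (θ - θ ^ nm v) < 1) :
    ∃ a : 𝓞 k, O.valuation (θ - algebraMap k E a) < 1 := by
  classical
  have hmax : v.asIdeal.IsMaximal := v.isMaximal
  let _ : Field (𝓞 k ⧸ v.asIdeal) := Ideal.Quotient.field v.asIdeal
  have hfin : Finite (𝓞 k ⧸ v.asIdeal) := Ideal.finiteQuotientOfFreeOfNeBot v.asIdeal v.ne_bot
  let _ : Fintype (𝓞 k ⧸ v.asIdeal) := Fintype.ofFinite _
  have hcard : Fintype.card (𝓞 k ⧸ v.asIdeal) = nm v := by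
    unfold nm
    rw [Ideal.absNorm_apply, Submodule.cardQuot_apply, Nat.card_eq_fintype_card]
  have hmem : ∀ x : 𝓞 k, algebraMap k E x ∈ O := fun x =>
    (hO x).2 (v.valuation_le_one (K := k) x)
  let f0 : 𝓞 k →+* O := ((algebraMap k E).comp (algebraMap (𝓞 k) k)).codRestrict O.toSubring hmem
  let f1 : 𝓞 k →+* IsLocalRing.ResidueField O := (IsLocalRing.residue O).comp f0
  have hres : ∀ z : O, IsLocalRing.residue O z = 0 ↔ O.valuation (z : E) < 1 := by
    intro z
    rw [IsLocalRing.residue_eq_zero_iff, ← ValuationSubring.valuation_lt_one_iff]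
  have hker : ∀ x ∈ v.asIdeal, f1 x = 0 := by
    intro x hx
    change IsLocalRing.residue O (f0 x) = 0
    rw [hres]
    change O.valuation (algebraMap k E x) < 1
    rw [val_lt hO]
    exact (v.valuation_lt_one_iff_mem (K := k) x).2 hx
  let f : 𝓞 k ⧸ v.asIdeal →+* IsLocalRing.ResidueField O := Ideal.Quotient.lift v.asIdeal f1 hker
  set y : IsLocalRing.ResidueField O := IsLocalRing.residue O ⟨θ, hθ⟩ with hy
  have hyq : y ^ nm v = y := by
    rw [hy, ← map_pow, ← sub_eq_zero, ← neg_eq_zero, neg_sub, ← map_sub, hres]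
    exact h
  -- the roots of `X ^ q - X`
  have h1q : 1 < nm v := by
    rw [← hcard]
    exact Fintype.one_lt_card
  have hp0 : (X ^ nm v - X : (IsLocalRing.ResidueField O)[X]) ≠ 0 :=
    FiniteField.X_pow_card_sub_X_ne_zero _ h1q
  have hS : Finset.univ.image f ⊆ (X ^ nm v - X : (IsLocalRing.ResidueField O)[X]).roots.toFinset := by
    intro z hz
    obtain ⟨a, -, rfl⟩ := Finset.mem_image.1 hz
    rw [Multiset.mem_toFinset, mem_roots hp0, IsRoot.def, eval_sub, eval_pow, eval_X, sub_eq_zero,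
      ← map_pow, ← hcard, FiniteField.pow_card]
  have hcS : (X ^ nm v - X : (IsLocalRing.ResidueField O)[X]).roots.toFinset.card ≤ (Finset.univ.image f).card := by
    rw [Finset.card_image_of_injective _ f.injective, Finset.card_univ, hcard]
    refine (Multiset.toFinset_card_le _).trans ((card_roots' _).trans ?_)
    rw [FiniteField.X_pow_card_sub_X_natDegree_eq _ h1q]
  have hyS : y ∈ Finset.univ.image f := by
    rw [Finset.eq_of_subset_of_card_le hS hcS, Multiset.mem_toFinset, mem_roots hp0, IsRoot.def, eval_sub,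
      eval_pow, eval_X, hyq, sub_self]
  obtain ⟨b, -, hb⟩ := Finset.mem_image.1 hyS
  obtain ⟨a, rfl⟩ := Ideal.Quotient.mk_surjective b
  refine ⟨a, ?_⟩
  have h2 : IsLocalRing.residue O (⟨θ, hθ⟩ - f0 a) = 0 := by
    rw [map_sub, sub_eq_zero, ← hy, ← hb]
    rfl
  rw [hres] at h2
  exact h2

/-- For almost all `v` a root of `g` whose residue is fixed by the Frobenius map gives a root in
`k_v`. -/
theorem root_v (g : k[X]) (hg : g.Monic) (hsep : IsCoprime g (derivative g)) :
    ∃ Bad : Set (Pr k), Bad.Finite ∧ ∀ v ∉ Bad, ∀ (O : ValuationSubring E) (θ : E),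
      Pool.Agent.L.OverV v O → aeval θ g = 0 → (θ ∈ O → O.valuation (θ - θ ^ nm v) < 1) →
      ∃ z : v.adicCompletion k, aeval z g = 0 := by
  classical
  obtain ⟨A, B, hAB⟩ := hsep
  refine ⟨{v | ∃ i, 1 < v.valuation k (g.coeff i)} ∪ ({v | ∃ i, 1 < v.valuation k (A.coeff i)} ∪
    {v | ∃ i, 1 < v.valuation k (B.coeff i)}), (fin_coeff g).union ((fin_coeff A).union (fin_coeff B)),
    ?_⟩
  intro v hv O θ hO hgθ hfr
  simp only [Set.mem_union, Set.mem_ofPred_eq, not_or, not_exists, not_lt] at hv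
  obtain ⟨hvg, hvA, hvB⟩ := hv
  -- `θ` is integral
  have hθ : θ ∈ O := by
    rw [← ValuationSubring.valuation_le_one_iff]
    by_contra hcon
    rw [not_le] at hcon
    have h1 : aeval θ g = θ ^ g.natDegree + ∑ i ∈ Finset.range g.natDegree, algebraMap k E (g.coeff i) * θ ^ i := by
      conv_lhs => rw [hg.as_sum]
      simp only [map_add, map_pow, aeval_X, map_sum, map_mul, aeval_C]
    rw [hgθ] at h1
    have h2 : O.valuation (∑ i ∈ Finset.range g.natDegree, algebraMap k E (g.coeff i) * θ ^ i) <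
        O.valuation θ ^ g.natDegree := by
      refine Valuation.map_sum_lt _ (pow_ne_zero _ (zero_lt_one.trans hcon).ne') ?_
      intro i hi
      rw [map_mul, map_pow]
      have h3 : O.valuation (algebraMap k E (g.coeff i)) ≤ 1 :=
        (ValuationSubring.valuation_le_one_iff _ _).2 ((hO _).2 (hvg i))
      refine (mul_le_of_le_one_left' h3).trans_lt ?_
      exact pow_lt_pow_right₀ hcon (Finset.mem_range.1 hi)
    have h3 : θ ^ g.natDegree = -∑ i ∈ Finset.range g.natDegree, algebraMap k E (g.coeff i) * θ ^ i :=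
      eq_neg_of_add_eq_zero_left h1.symm
    rw [← map_pow, h3, Valuation.map_neg] at h2
    exact lt_irrefl _ h2
  obtain ⟨a, ha⟩ := exists_int v O hO θ hθ (hfr hθ)
  have haO : algebraMap k E (a : k) ∈ O := (hO a).2 (v.valuation_le_one (K := k) a)
  -- values of integral polynomials at `a`
  have hev : ∀ A : k[X], (∀ i, v.valuation k (A.coeff i) ≤ 1) → v.valuation k (A.eval (a : k)) ≤ 1 := by
    intro A hA
    rw [eval_eq_sum_range]
    refine Valuation.map_sum_le _ fun i _ => ?_
    rw [map_mul, map_pow]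
    exact mul_le_one' (hA i) (pow_le_one' (v.valuation_le_one (K := k) a) i)
  have hdev : ∀ A : k[X], (∀ i, v.valuation k (A.coeff i) ≤ 1) → ∀ i, v.valuation k ((derivative A).coeff i) ≤ 1 := by
    intro A hA i
    rw [coeff_derivative, map_mul]
    refine mul_le_one' (hA _) ?_
    have := v.valuation_le_one (K := k) ((i : 𝓞 k) + 1)
    change v.valuation k (algebraMap (𝓞 k) k ((i : 𝓞 k) + 1)) ≤ 1 at this
    rwa [map_add, map_natCast, map_one] at this
  -- `g(a) ≡ g(θ)`
  have hga : v.valuation k (g.eval (a : k)) < 1 := by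
    rw [← val_lt hO]
    have h1 : algebraMap k E (g.eval (a : k)) = aeval (algebraMap k E (a : k)) g - aeval θ g := by
      rw [hgθ, sub_zero, aeval_algebraMap_apply, coe_aeval_eq_eval]
    rw [h1, aeval_eq_sum_range, aeval_eq_sum_range, ← Finset.sum_sub_distrib]
    refine Valuation.map_sum_lt _ one_ne_zero fun i _ => ?_
    rw [← smul_sub, Algebra.smul_def, map_mul]
    have h3 : O.valuation (algebraMap k E (g.coeff i)) ≤ 1 :=
      (ValuationSubring.valuation_le_one_iff _ _).2 ((hO _).2 (hvg i))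
    refine (mul_le_of_le_one_left' h3).trans_lt ?_
    rw [← (Commute.all (algebraMap k E (a : k)) θ).geom_sum₂_mul i, map_mul]
    have h4 : O.valuation (∑ j ∈ Finset.range i, algebraMap k E (a : k) ^ j * θ ^ (i - 1 - j)) ≤ 1 := by
      rw [ValuationSubring.valuation_le_one_iff]
      exact sum_mem fun j _ => O.mul_mem _ _ (pow_mem haO _) (pow_mem hθ _)
    refine (mul_le_of_le_one_left' h4).trans_lt ?_
    rw [← neg_sub, Valuation.map_neg]
    exact ha
  have hg'a : v.valuation k ((derivative g).eval (a : k)) = 1 := by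
    refine le_antisymm (hev _ (hdev g hvg)) ?_
    by_contra hcon
    rw [not_le] at hcon
    have h1 : A.eval (a : k) * g.eval (a : k) + B.eval (a : k) * (derivative g).eval (a : k) = 1 := by
      rw [← eval_mul, ← eval_mul, ← eval_add, hAB, eval_one]
    have h2 : v.valuation k (A.eval (a : k) * g.eval (a : k) + B.eval (a : k) * (derivative g).eval (a : k)) < 1 := by
      refine Valuation.map_add_lt _ ?_ ?_
      · rw [map_mul]
        exact (mul_le_of_le_one_left' (hev A hvA)).trans_lt hga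
      · rw [map_mul]
        exact (mul_le_of_le_one_left' (hev B hvB)).trans_lt hcon
    rw [h1, map_one] at h2
    exact lt_irrefl _ h2
  -- Hensel's lemma
  have hval : ∀ x : k, Valued.v (algebraMap k (v.adicCompletion k) x) = v.valuation k x :=
    fun x => v.valuedAdicCompletion_eq_valuation' x
  obtain ⟨z, hz, -⟩ := hens k v (g.map (algebraMap k (v.adicCompletion k))) (algebraMap k (v.adicCompletion k) a)
    (fun i => by rw [coeff_map, hval]; exact hvg i)
    (by rw [hval]; exact v.valuation_le_one (K := k) a)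
    (by rw [eval_map_algebraMap, aeval_algebraMap_apply, coe_aeval_eq_eval, hval]; exact hga)
    (by rw [derivative_map, eval_map_algebraMap, aeval_algebraMap_apply, coe_aeval_eq_eval, hval]; exact hg'a)
  exact ⟨z, by rw [← eval_map_algebraMap]; exact hz⟩

end resid

/-! ## The block -/

theorem phi_eq {k K0 E : Type} [Field k] [Field K0] [Field E] [Algebra k K0] [Algebra k E] {h : K0}
    {b b' : Pool.Agent.MP.GBr k E h} (hb : b' = b) (x : K0) (hx' : x ∈ b'.P) (hx : x ∈ b.P) :
    b'.φ ⟨x, hx'⟩ = b.φ ⟨x, hx⟩ := by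
  subst hb
  rfl

/-- **BLOCK L1** -/
theorem l1 : StmtL1 := by
  classical
  intro k K₀ _ _ _ _ h hG
  have hF := hG.ff
  have hh : h ≠ 0 := by
    rintro rfl
    refine hG.irr 0 (by rw [map_zero, zero_pow two_ne_zero]) (zero_mem _)
  have hfin := finite_odd hF h
  have hch : ∀ P : ValuationSubring K₀, ∃ Bad : Set (Pr k), Bad.Finite ∧
      ((∃ φ : P →+* AlgebraicClosure k, Emb k h P φ) → ∃ (a : P) (g : k[X]), g.Monic ∧ Irreducible g ∧
        (∀ φ : P →+* AlgebraicClosure k, Emb k h P φ → aeval (φ a) g = 0 ∧ ∀ x, φ x ∈ k⟮φ a⟯) ∧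
        ∀ v ∉ Bad, ∀ (O : ValuationSubring (AlgebraicClosure k)) (θ : AlgebraicClosure k),
          Pool.Agent.L.OverV v O → aeval θ g = 0 → (θ ∈ O → O.valuation (θ - θ ^ nm v) < 1) →
          ∃ z : v.adicCompletion k, aeval z g = 0) := by
    intro P
    by_cases hex : ∃ φ : P →+* AlgebraicClosure k, Emb k h P φ
    · obtain ⟨a, g, hg, hirr, hall⟩ := gen_all hF h P hex
      obtain ⟨Bad, hBad, hr⟩ := root_v (E := AlgebraicClosure k) g hg hirr.separable
      exact ⟨Bad, hBad, fun _ => ⟨a, g, hg, hirr, hall, hr⟩⟩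
    · exact ⟨∅, Set.finite_empty, fun h => absurd h hex⟩
  choose Bad hBad hP using hch
  refine ⟨⋃ P ∈ hfin.toFinset, Bad P, Set.Finite.biUnion (Finset.finite_toSet _) fun P _ => hBad P, ?_⟩
  intro v hv c hc ⟨O, F, p, f, hD, b, hb⟩
  rw [lp k K₀ (v.adicCompletion k) h c hh hc]
  have hemb : Emb k h b.P b.φ := ⟨b.const, b.odd, b.emb⟩
  have hvP : v ∉ Bad b.P := by
    intro hcon
    refine hv (Set.mem_biUnion ?_ hcon)
    rw [Finset.mem_coe, Set.Finite.mem_toFinset]
    exact ⟨b.const, b.odd⟩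
  obtain ⟨a, g, hg, hirr, hall, hr⟩ := hP b.P ⟨b.φ, hemb⟩
  obtain ⟨hroot, hgen⟩ := hall b.φ hemb
  have hfix : F (b.φ a) = b.φ a := phi_eq hb a a.2 a.2
  obtain ⟨z, hz⟩ := hr v hvP O (b.φ a) hD.above hroot (fun hθ => by
    have h1 := hD.frob.frob (b.φ a) hθ
    rw [hD.norm]
    change O.valuation (F (b.φ a) - _) < 1 at h1
    rwa [hfix] at h1)
  have hmin : minpoly k (b.φ a) = g := (minpoly.eq_of_irreducible_of_monic hirr hroot hg).symm
  have hint : IsIntegral k (b.φ a) := ⟨g, hg, by rw [← aeval_def]; exact hroot⟩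
  let ι : k⟮b.φ a⟯ →ₐ[k] v.adicCompletion k := (IntermediateField.adjoin.powerBasis hint).lift z (by
    rw [IntermediateField.adjoin.powerBasis_gen, IntermediateField.minpoly_gen, hmin]
    exact hz)
  let ψ : b.P →+* v.adicCompletion k := (ι : k⟮b.φ a⟯ →+* v.adicCompletion k).comp
    (b.φ.codRestrict k⟮b.φ a⟯ hgen)
  refine ⟨b.P, ψ, ?_, ?_, Or.inl b.odd⟩
  · intro x
    refine ⟨b.const x, ?_⟩
    change ι ⟨b.φ ⟨algebraMap k K₀ x, b.const x⟩, _⟩ = _
    rw [← ι.commutes]
    congr 1
    exact Subtype.ext (b.emb x _ rfl)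
  · intro x
    by_cases h0 : b.φ x = 0
    · refine Or.inl ?_
      change ι ⟨b.φ x, _⟩ = 0
      have : (⟨b.φ x, hgen x⟩ : k⟮b.φ a⟯) = 0 := Subtype.ext h0
      rw [this, map_zero]
    · refine Or.inr ?_
      have h1 : (x : K₀) ∉ b.P.nonunits := fun hx => h0 ((ker_iff b.P b.const b.φ b.emb x).2 hx)
      by_contra hcon
      exact h1 ((ValuationSubring.mem_nonunits_iff_or _).2 (Or.inr hcon))

end Pool.Agent.MPF
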