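import Pool.Agent.Helper13.MP.Defs
import Pool.Agent.Helper5.M.G3M

/-!
# MP-G3K (helper79, copy of Helper5/M/G3M): the weights relative to the primes with a root
-/

set_option autoImplicit false

namespace Pool.Agent.HG

open Polynomial NumberField IsDedekindDomain
open scoped Pointwise IntermediateField

namespace Ctx

variable {k L : Type} [Field k] [NumberField k] [Field L] [NumberField L] [Algebra k L]
  [IsGalois k L] {f : k[X]} (X : Ctx k L f)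

theorem stab_ΩJ79 (hm : 0 < X.m) (J : Finset (Fin X.m)) :
    ∀ σ : L ≃ₐ[k] L, ∀ θ ∈ X.ΩJ5 hm J, σ θ ∈ X.ΩJ5 hm J := by
  intro σ θ hθ
  rw [mem_ΩJ5] at hθ ⊢
  refine ⟨?_, ?_⟩
  · have h1 := hθ.1
    rw [X.mem_Ω, mem_rootSet_of_ne X.sepf.ne_zero] at h1 ⊢
    have h2 := aeval_algHom_apply (σ : L →ₐ[k] L) θ f
    rw [h1, map_zero] at h2
    exact h2
  · rw [X.cmp_congr5 hm (minpoly.algEquiv_eq σ θ)]
    exact hθ.2

open Pool.Agent.Helper99.HG in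
/-- few roots: the primes with a root, but no root in `J`, have positive density -/
theorem tar79 {B : ℕ → Finset (Pr k)} (hB : ∀ x v, v ∈ B x ↔ nm v ≤ x) (hm : 0 < X.m)
    (hfin : {v : Pr k | ¬ Gd X.M v}.Finite) (ι : Type)
    (Vι : Pr k → L → Finset ι) (g : Pr k → (Σ _ : L × ℤˣ, ι) → L → ℤˣ)
    (J : Finset (Fin X.m)) {δ C : ℝ} (hδ : 0 < δ)
    (hC : ∀ x : ℕ, 2 ≤ x → |(open scoped Classical in
      ∑ v ∈ (B x).filter (fun v => (X.Fx v).Nonempty ∧ ∀ θ ∈ X.ΩJ5 hm J, X.F v θ ≠ θ), (1 : ℝ) / nm v) -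
        δ * Real.log (Real.log x)| ≤ C) :
    MP.TAR (X.cdM hm hfin ι Vι g) {v : Pr k | (X.Fx v).Nonempty} J := by
  classical
  refine ⟨δ, 2 * C + ∑ v ∈ hfin.toFinset, (1 : ℝ) / nm v, hδ, fun y x hy hyx (S : Finset (Pr k)) hS => ?_⟩
  refine diff5 hB {v : Pr k | (X.Fx v).Nonempty ∧ ∀ θ ∈ X.ΩJ5 hm J, X.F v θ ≠ θ} (fun x hx => by
      convert hC x hx
      exact Iff.rfl) hfin.toFinset hy hyx S
    fun v hv h1 h2 h3 => (hS v).2 ⟨hv.1, h3, h1, h2, fun o ho => ?_⟩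
  intro hcon
  have ho' : o ∈ (X.Fx v ×ˢ (Finset.univ : Finset ℤˣ)).sigma fun o => Vι v o.1 := ho
  have h4 := (Finset.mem_product.1 (Finset.mem_sigma.1 ho').1).1
  have h5 : o.1.1 ∈ X.FJ5 hm J v := by
    unfold FJ5
    exact Finset.mem_filter.2 ⟨h4, hcon⟩
  have h6 := (X.mem_FJ5 hm J v o.1.1).1 h5
  exact hv.2 o.1.1 (X.FJ_sub_ΩJ5 hm J v h5) h6.1.2

open Pool.Agent.Helper99.HG in
/-- many roots: the weights are less than `κ` in the mean -/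
theorem tbr79 (K : ℕ) {δs Cs : ℝ} {Qs : Set (Pr k)} (hδs : 0 < δs)
    (hQs : ∀ v ∈ Qs, ∀ P : Pr L, P.asIdeal.comap (algebraMap (𝓞 k) (𝓞 L)) = v.asIdeal →
        ∀ z : 𝓞 L, z ^ nm v - z ∈ P.asIdeal)
    {B₀ : ℕ → Finset (Pr k)} (hB₀ : ∀ x v, v ∈ B₀ x ↔ nm v ≤ x)
    (hCs : ∀ x : ℕ, 2 ≤ x → |(open scoped Classical in
      ∑ v ∈ (B₀ x).filter (· ∈ Qs), (1 : ℝ) / nm v) - δs * Real.log (Real.log x)| ≤ Cs)
    {κ C₂ : ℝ} (h2 : ∀ x : ℕ, 2 ≤ x → |(open scoped Classical in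
      ∑ v ∈ (B₀ x).filter (· ∈ {v : Pr k | (X.Fx v).Nonempty}), (1 : ℝ) / nm v) - κ * Real.log (Real.log x)| ≤ C₂)
    (hm : 0 < X.m)
    (hfin : {v : Pr k | ¬ Gd X.M v}.Finite) (ι : Type)
    (Vι : Pr k → L → Finset ι) (g : Pr k → (Σ _ : L × ℤˣ, ι) → L → ℤˣ)
    (hK : ∀ v t, (Vι v t).card ≤ K) (Q : Set (Pr k))
    (hQ : ∀ v ∉ Q, Gd X.M v → ∀ t, (Vι v t).card ≤ 1)
    {B : ℕ → Finset (Pr k)} (hB : ∀ x v, v ∈ B x ↔ nm v ≤ x) {δ C : ℝ}
    (hδ : δ ≤ 3 / 16 * δs / (K + 3 / 8))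
    (hC : ∀ x : ℕ, 2 ≤ x → |(open scoped Classical in
      ∑ v ∈ (B x).filter (· ∈ Q), (1 : ℝ) / nm v) - δ * Real.log (Real.log x)| ≤ C)
    (J : Finset (Fin X.m)) (h5 : 5 ≤ (X.ΩJ5 hm J).card) :
    MP.TBR (X.cdM hm hfin ι Vι g) {v : Pr k | (X.Fx v).Nonempty} κ J := by
  classical
  have hKpos : (0 : ℝ) < K + 3 / 8 := by positivity
  obtain ⟨θ₀, hθ₀⟩ := Finset.card_pos.1 (show 0 < (X.ΩJ5 hm J).card by omega)
  rw [mem_ΩJ5] at hθ₀
  refine ⟨⟨_, hθ₀.2⟩, 3 / 16 * δs, 2 * C₂ + 3 / 8 * (2 * Cs + ∑ v ∈ hfin.toFinset, (1 : ℝ) / nm v) +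
    (K + 3 / 8) * (2 * C), by positivity, fun y x hy hyx (S : Finset (Pr k)) hS => ?_⟩
  have hS' : ∀ v, v ∈ S ↔ (X.Fx v).Nonempty ∧ v ∉ hfin.toFinset ∧ y < nm v ∧ nm v ≤ x := hS
  have hLL : Real.log (Real.log y) ≤ Real.log (Real.log x) :=
    Real.log_le_log (Real.log_pos (by exact_mod_cast (by omega : 1 < y)))
      (Real.log_le_log (by exact_mod_cast (by omega : 0 < y)) (by exact_mod_cast hyx))
  have e1 := upperQ5 hB₀ {v : Pr k | (X.Fx v).Nonempty} (by convert h2) hy hyx S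
    fun v hv => ⟨((hS' v).1 hv).1, ((hS' v).1 hv).2.2⟩
  have e2 := diff5 hB₀ Qs (by convert hCs) hfin.toFinset hy hyx (S.filter (· ∈ Qs))
    fun v hvQ h1 h2 h3 => by
      rw [Finset.mem_filter, hS']
      have hgd : Gd X.M v := by
        by_contra h8
        exact h3 (hfin.mem_toFinset.2 h8)
      refine ⟨⟨⟨θ₀, ?_⟩, h3, h1, h2⟩, hvQ⟩
      unfold Fx
      exact Finset.mem_filter.2 ⟨hθ₀.1, X.fix_split5 hgd (hQs v hvQ (X.P v) (X.comap v)) hθ₀.1⟩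
  have e2' := upperQ5 hB Q (by convert hC) hy hyx (S.filter (· ∈ Q))
    fun v hv => by
      rw [Finset.mem_filter, hS'] at hv
      exact ⟨hv.2, hv.1.2.2⟩
  have e3 : ∀ v ∈ S, WJ (X.cdM hm hfin ι Vι g) J v / nm v ≤
      1 / nm v - 3 / 8 * (if v ∈ Qs then (1 : ℝ) / nm v else 0) +
        (K + 3 / 8) * (if v ∈ Q then (1 : ℝ) / nm v else 0) := by
    intro v hv
    have hpos : (0 : ℝ) < nm v := by
      have := (card_quot5 v).2
      exact_mod_cast (by omega : 0 < nm v)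
    have hgd : Gd X.M v := by
      by_contra h8
      exact ((hS' v).1 hv).2.1 (hfin.mem_toFinset.2 h8)
    have hw1 := X.wj_le5 hm hfin (fun _ _ _ => 1) J h5 v
    have hw0 := X.wj_nonneg5 hm hfin (fun _ _ _ => 1) J v
    have hws : v ∈ Qs → WJ (X.cd hm hfin (fun _ _ _ => 1)) J v ≤ 5 / 8 := fun h =>
      X.wj_le_split5 hm hfin (fun _ _ _ => 1) J h5 v fun θ hθ =>
        X.fix_split5 hgd (hQs v h (X.P v) (X.comap v)) hθ
    have key : WJ (X.cdM hm hfin ι Vι g) J v ≤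
        1 - 3 / 8 * (if v ∈ Qs then (1 : ℝ) else 0) +
          (K + 3 / 8) * (if v ∈ Q then (1 : ℝ) else 0) := by
      by_cases hvQ : v ∈ Q
      · have h6 := X.wjM_le5 hm hfin ι Vι g (fun _ _ _ => 1) J v K (hK v)
        have h7 : (K : ℝ) * WJ (X.cd hm hfin (fun _ _ _ => 1)) J v ≤ K * 1 :=
          mul_le_mul_of_nonneg_left hw1 (Nat.cast_nonneg K)
        rw [if_pos hvQ]
        have h8 : (if v ∈ Qs then (1 : ℝ) else 0) ≤ 1 := by split_ifs <;> norm_num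
        linarith
      · have h6 := X.wjM_le5 hm hfin ι Vι g (fun _ _ _ => 1) J v 1 (hQ v hvQ hgd)
        rw [Nat.cast_one, one_mul] at h6
        rw [if_neg hvQ, mul_zero, add_zero]
        split_ifs with h
        · have := hws h
          linarith
        · linarith
    have h9 := div_le_div_of_nonneg_right key hpos.le
    refine h9.trans (le_of_eq ?_)
    split_ifs <;> ring
  have e4 : ∑ v ∈ S, WJ (X.cdM hm hfin ι Vι g) J v / nm v ≤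
      ∑ v ∈ S, (1 : ℝ) / nm v - 3 / 8 * ∑ v ∈ S.filter (· ∈ Qs), (1 : ℝ) / nm v +
        (K + 3 / 8) * ∑ v ∈ S.filter (· ∈ Q), (1 : ℝ) / nm v := by
    refine (Finset.sum_le_sum e3).trans (le_of_eq ?_)
    rw [Finset.sum_add_distrib, Finset.sum_sub_distrib, ← Finset.mul_sum, ← Finset.mul_sum,
      Finset.sum_filter, Finset.sum_filter]
  have e5 : (K + 3 / 8 : ℝ) * (δ * (Real.log (Real.log x) - Real.log (Real.log y))) ≤
      3 / 16 * δs * (Real.log (Real.log x) - Real.log (Real.log y)) := by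
    rw [← mul_assoc]
    refine mul_le_mul_of_nonneg_right ?_ (by linarith)
    rw [le_div_iff₀ hKpos] at hδ
    linarith
  have e6 : (K + 3 / 8 : ℝ) * ∑ v ∈ S.filter (· ∈ Q), (1 : ℝ) / nm v ≤
      (K + 3 / 8) * (δ * (Real.log (Real.log x) - Real.log (Real.log y)) + 2 * C) :=
    mul_le_mul_of_nonneg_left e2' hKpos.le
  change ∑ v ∈ S, WJ (X.cdM hm hfin ι Vι g) J v / nm v ≤ _
  rw [mul_add] at e6
  linarith

end Ctx

end Pool.Agent.HG

namespace Pool.Agent.MP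

open Polynomial NumberField IsDedekindDomain
open Pool.Agent.HG (Pr nm IsOdd Ctx Gd)
open scoped Pointwise IntermediateField

/-- **BLOCK G3K**: the weights, with multiplicities, relative to the primes with a root -/
theorem g3K : StmtG3K := by
  classical
  intro hMe hSp hDK hW3 k L _ _ _ _ _ _ f hf5 h4 K
  obtain ⟨B₀, hB₀⟩ := HG.exists_B5 k
  obtain ⟨δs, Cs, Qs, hδs, hQs, hCs⟩ := hSp k L B₀ hB₀
  have hKpos : (0 : ℝ) < K + 3 / 8 := by positivity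
  refine ⟨3 / 16 * δs / (K + 3 / 8), by positivity, fun X hm hfin ι Vι g hK Q hQ B hB δ C hδ hC => ?_⟩
  obtain ⟨⟨C₂, h2⟩, hJ⟩ := hDK hW3 k L f X (by omega) B₀ hB₀
  have h2' : ∀ x : ℕ, 2 ≤ x → |∑ v ∈ (B₀ x).filter (· ∈ {v : Pr k | (X.Fx v).Nonempty}), (1 : ℝ) / nm v -
      ((Nat.card {σ : L ≃ₐ[k] L // ∃ θ ∈ X.Ω, σ θ = θ} : ℝ) / Nat.card (L ≃ₐ[k] L)) * Real.log (Real.log x)| ≤ C₂ := by
    intro x hx
    convert h2 x hx
    exact Iff.rfl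
  have hs := HG.sys5 hMe k
  refine ⟨⟨hs.two, hs.fin, hs.cheb, 2 * C₂, fun y x hy hyx S hS => ?_⟩, ⟨X.Ω.card * 2 * K, fun p => ?_⟩, fun J => ?_⟩
  · exact HG.upperQ5 hB₀ {v : Pr k | (X.Fx v).Nonempty} (by convert h2') hy hyx S hS
  · change ((X.Fx p ×ˢ (Finset.univ : Finset ℤˣ)).sigma fun o => Vι p o.1).card ≤ _
    have hu : (Finset.univ : Finset ℤˣ).card = 2 := rfl
    rw [Finset.card_sigma]
    refine (Finset.sum_le_card_nsmul _ _ K fun o _ => hK p o.1).trans ?_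
    rw [smul_eq_mul, Finset.card_product, hu]
    refine Nat.mul_le_mul_right K (Nat.mul_le_mul_right 2 ?_)
    unfold Ctx.Fx
    exact Finset.card_filter_le _ _
  · rcases Nat.lt_or_ge (X.ΩJ5 hm J).card 5 with h | h
    · have hsub : ((X.ΩJ5 hm J : Finset L) : Set L) ⊆ f.rootSet L := by
        intro θ hθ
        rw [Finset.mem_coe, Ctx.mem_ΩJ5, Ctx.mem_Ω] at hθ
        exact hθ.1
      obtain ⟨σ, ⟨θ, hθ, hσ⟩, hσ'⟩ := h4 (X.ΩJ5 hm J) (X.stab_ΩJ79 hm J) hsub (by omega)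
      obtain ⟨δ', C', hδ', hC'⟩ := hJ (X.ΩJ5 hm J) (X.stab_ΩJ79 hm J) ⟨σ, ⟨θ, (X.mem_Ω θ).2 hθ, hσ⟩, hσ'⟩
      refine Or.inl (X.tar79 hB₀ hm hfin ι Vι g J (C := C') hδ' ?_)
      intro x hx
      convert hC' x hx
    · refine Or.inr (X.tbr79 (Cs := Cs) (C := C) K hδs hQs hB₀ ?_ (C₂ := C₂) ?_ hm hfin ι Vι g hK Q hQ hB hδ
        ?_ J h)
      · intro x hx
        convert hCs x hx
      · intro x hx
        convert h2' x hx
      · intro x hx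
        convert hC x hx

end Pool.Agent.MP
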