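import Mathlib

/-!
# Extension of a point along a quadratic extension of the function field

`K0` a field, `P0` a valuation ring of `K0`, `φ0 : P0 → F` a homomorphism to a field, `K = K0(s)`,
`s² = d ∈ K0`, `s ∉ K0`.
-/

set_option autoImplicit false

namespace Pool.Agent.Helper79.MP

/-- A ring `A` in `K` with a homomorphism `ψ : A → F`, such that every `z ∈ K` or its inverse is a
fraction of elements of `A` whose denominator is not in the kernel: the fractions form a valuation
ring, and `ψ` extends to it; the kernel of the extension is the maximal ideal. -/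
theorem ext_loc {A K F : Type*} [CommRing A] [Field K] [Field F] (e : A →+* K)
    (he : Function.Injective e) (ψ : A →+* F)
    (h : ∀ z : K, (∃ r u : A, ψ u ≠ 0 ∧ z * e u = e r) ∨ ∃ r u : A, ψ u ≠ 0 ∧ z⁻¹ * e u = e r) :
    ∃ (P : ValuationSubring K) (φ : P →+* F), (∀ a : A, ∃ ha : e a ∈ P, φ ⟨e a, ha⟩ = ψ a) ∧
      ∀ x : P, φ x ≠ 0 → (x : K)⁻¹ ∈ P := by
  classical
  have hu0 : ∀ u : A, ψ u ≠ 0 → e u ≠ 0 := by
    intro u hu h0
    have : u = 0 := he (by rw [h0, map_zero])
    rw [this, map_zero] at hu
    exact hu rfl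
  let P : ValuationSubring K :=
    { carrier := {z | ∃ r u : A, ψ u ≠ 0 ∧ z * e u = e r}
      zero_mem' := ⟨0, 1, by rw [map_one]; exact one_ne_zero, by rw [map_zero, zero_mul]⟩
      one_mem' := ⟨1, 1, by rw [map_one]; exact one_ne_zero, by rw [one_mul]⟩
      add_mem' := by
        rintro z z' ⟨r, u, hu, hz⟩ ⟨r', u', hu', hz'⟩
        refine ⟨r * u' + r' * u, u * u', by rw [map_mul]; exact mul_ne_zero hu hu', ?_⟩
        rw [map_mul, map_add, map_mul, map_mul, ← hz, ← hz']
        ring
      neg_mem' := by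
        rintro z ⟨r, u, hu, hz⟩
        refine ⟨-r, u, hu, ?_⟩
        rw [map_neg, ← hz]
        ring
      mul_mem' := by
        rintro z z' ⟨r, u, hu, hz⟩ ⟨r', u', hu', hz'⟩
        refine ⟨r * r', u * u', by rw [map_mul]; exact mul_ne_zero hu hu', ?_⟩
        rw [map_mul, map_mul, ← hz, ← hz']
        ring
      mem_or_inv_mem' := h }
  have hP : ∀ z : K, z ∈ P ↔ ∃ r u : A, ψ u ≠ 0 ∧ z * e u = e r := fun z => Iff.rfl
  have hch : ∀ z : P, ∃ r u : A, ψ u ≠ 0 ∧ (z : K) * e u = e r := fun z => z.2
  choose r u hu hz using hch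
  -- well defined
  have hwd : ∀ (z : P) (r' u' : A), ψ u' ≠ 0 → (z : K) * e u' = e r' → ψ (r z) / ψ (u z) = ψ r' / ψ u' := by
    intro z r' u' hu' hz'
    have h1 : r z * u' = r' * u z := by
      apply he
      rw [map_mul, map_mul, ← hz z, ← hz']
      ring
    rw [div_eq_div_iff (hu z) hu', ← map_mul, h1, map_mul]
  let φ : P →+* F :=
    { toFun := fun z => ψ (r z) / ψ (u z)
      map_one' := by
        have := hwd 1 1 1 (by rw [map_one]; exact one_ne_zero) (by
          rw [map_one]
          exact mul_one _)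
        rw [this, map_one, div_one]
      map_zero' := by
        have := hwd 0 0 1 (by rw [map_one]; exact one_ne_zero) (by
          rw [map_one, map_zero]
          exact zero_mul _)
        rw [this, map_one, map_zero, div_one]
      map_add' := fun z z' => by
        have := hwd (z + z') (r z * u z' + r z' * u z) (u z * u z') (by
          rw [map_mul]
          exact mul_ne_zero (hu z) (hu z')) (by
          rw [map_mul, map_add, map_mul, map_mul, ← hz z, ← hz z']
          change ((z : K) + z') * _ = _
          ring)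
        rw [this, map_mul, map_add, map_mul, map_mul]
        have h1 := hu z
        have h2 := hu z'
        field_simp
      map_mul' := fun z z' => by
        have := hwd (z * z') (r z * r z') (u z * u z') (by
          rw [map_mul]
          exact mul_ne_zero (hu z) (hu z')) (by
          rw [map_mul, map_mul, ← hz z, ← hz z']
          change ((z : K) * z') * _ = _
          ring)
        rw [this, map_mul, map_mul]
        have h1 := hu z
        have h2 := hu z'
        field_simp }
  have hφ : ∀ (z : P) (r' u' : A), ψ u' ≠ 0 → (z : K) * e u' = e r' → φ z = ψ r' / ψ u' := hwd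
  refine ⟨P, φ, fun a => ?_, fun x hx => ?_⟩
  · have ha : e a ∈ P := (hP _).2 ⟨a, 1, by rw [map_one]; exact one_ne_zero, by rw [map_one, mul_one]⟩
    refine ⟨ha, ?_⟩
    have := hφ ⟨e a, ha⟩ a 1 (by rw [map_one]; exact one_ne_zero) (by rw [map_one]; exact mul_one _)
    rw [this, map_one, div_one]
  · have h1 : φ x = ψ (r x) / ψ (u x) := rfl
    have h2 : ψ (r x) ≠ 0 := by
      intro h0
      rw [h1, h0, zero_div] at hx
      exact hx rfl
    refine (hP _).2 ⟨u x, r x, h2, ?_⟩
    have h3 : (x : K) ≠ 0 := by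
      intro h0
      have := hz x
      rw [h0, zero_mul] at this
      exact hu0 _ h2 this.symm
    rw [← hz x]
    field_simp

/-- the homomorphism of a point can be made local -/
theorem ext_local {K F : Type*} [Field K] [Field F] (P : ValuationSubring K) (φ : P →+* F) :
    ∃ (P' : ValuationSubring K) (φ' : P' →+* F), (∀ x : P, ∃ hx : (x : K) ∈ P', φ' ⟨x, hx⟩ = φ x) ∧
      ∀ x : P', φ' x ≠ 0 → (x : K)⁻¹ ∈ P' := by
  refine ext_loc P.subtype Subtype.val_injective φ fun z => ?_
  rcases P.mem_or_inv_mem z with hz | hz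
  · exact Or.inl ⟨⟨z, hz⟩, 1, by rw [map_one]; exact one_ne_zero, by rw [map_one, mul_one]; rfl⟩
  · exact Or.inr ⟨⟨z⁻¹, hz⟩, 1, by rw [map_one]; exact one_ne_zero, by rw [map_one, mul_one]; rfl⟩

section quadratic

variable {K0 K F : Type*} [Field K0] [Field K] [Field F] [Algebra K0 K]

/-- the unramified case -/
theorem ext_even (P0 : ValuationSubring K0) (φ0 : P0 →+* F) (s : K) (d : P0)
    (hs : s ^ 2 = algebraMap K0 K d) (hgen : ∀ z : K, ∃ a b : K0, z = algebraMap K0 K a + algebraMap K0 K b * s)
    (hsK : ∀ c : K0, algebraMap K0 K c ≠ s) (t : F) (ht : t ^ 2 = φ0 d) (ht0 : t ≠ 0)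
    (h2 : (2 : F) ≠ 0) :
    ∃ (P : ValuationSubring K) (φ : P →+* F), (∀ x : P0, ∃ hx : algebraMap K0 K x ∈ P, φ ⟨_, hx⟩ = φ0 x) ∧
      ∀ x : P, φ x ≠ 0 → (x : K)⁻¹ ∈ P := by
  classical
  let e : QuadraticAlgebra P0 d 0 →+* K :=
    { toFun := fun z => algebraMap K0 K z.re + algebraMap K0 K z.im * s
      map_one' := by
        rw [QuadraticAlgebra.re_one, QuadraticAlgebra.im_one]
        simp
      map_zero' := by
        rw [QuadraticAlgebra.re_zero, QuadraticAlgebra.im_zero]
        simp
      map_add' := fun z w => by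
        rw [QuadraticAlgebra.re_add, QuadraticAlgebra.im_add]
        change algebraMap K0 K ((z.re : K0) + w.re) + algebraMap K0 K ((z.im : K0) + w.im) * s = _
        rw [map_add, map_add]
        ring
      map_mul' := fun z w => by
        rw [QuadraticAlgebra.re_mul, QuadraticAlgebra.im_mul]
        change algebraMap K0 K ((z.re : K0) * w.re + d * z.im * w.im) +
          algebraMap K0 K ((z.re : K0) * w.im + z.im * w.re + 0 * z.im * w.im) * s = _
        simp only [map_add, map_mul]
        rw [← hs, map_zero]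
        ring }
  let ψ : QuadraticAlgebra P0 d 0 →+* F :=
    { toFun := fun z => φ0 z.re + φ0 z.im * t
      map_one' := by
        rw [QuadraticAlgebra.re_one, QuadraticAlgebra.im_one]
        simp
      map_zero' := by
        rw [QuadraticAlgebra.re_zero, QuadraticAlgebra.im_zero]
        simp
      map_add' := fun z w => by
        rw [QuadraticAlgebra.re_add, QuadraticAlgebra.im_add]
        simp only [map_add]
        ring
      map_mul' := fun z w => by
        rw [QuadraticAlgebra.re_mul, QuadraticAlgebra.im_mul]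
        simp only [map_add, map_mul]
        rw [← ht, map_zero]
        ring }
  have heq : ∀ z : QuadraticAlgebra P0 d 0, e z = algebraMap K0 K z.re + algebraMap K0 K z.im * s := fun _ => rfl
  have hψ : ∀ z : QuadraticAlgebra P0 d 0, ψ z = φ0 z.re + φ0 z.im * t := fun _ => rfl
  have hinj : Function.Injective e := by
    rw [injective_iff_map_eq_zero]
    intro z hz
    rw [heq] at hz
    have him : (z.im : K0) = 0 := by
      by_contra hne
      apply hsK (-(z.re : K0) / z.im)
      have h1 : algebraMap K0 K z.im ≠ 0 := by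
        rw [Ne, map_eq_zero]
        exact hne
      rw [map_div₀, map_neg, div_eq_iff h1]
      linear_combination -hz
    have hre : (z.re : K0) = 0 := by
      rw [him, map_zero, zero_mul, add_zero, map_eq_zero] at hz
      exact hz
    ext
    · exact hre
    · exact him
  have key : ∀ z : K, (∃ r u : QuadraticAlgebra P0 d 0, ψ u ≠ 0 ∧ z * e u = e r) ∨
      ∃ r u : QuadraticAlgebra P0 d 0, ψ u ≠ 0 ∧ z⁻¹ * e u = e r := by
    intro z
    by_cases hz0 : z = 0
    · exact Or.inl ⟨0, 1, by rw [map_one]; exact one_ne_zero, by rw [hz0, zero_mul, map_zero]⟩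
    -- a primitive multiple
    have hprim : ∃ (g : K0) (a b : P0), g ≠ 0 ∧ z = algebraMap K0 K g * (algebraMap K0 K a + algebraMap K0 K b * s) ∧
        (a = 1 ∨ b = 1) := by
      obtain ⟨a, b, hab⟩ := hgen z
      by_cases ha : a = 0
      · have hb : b ≠ 0 := by
          rintro rfl
          rw [ha, map_zero, zero_mul, add_zero] at hab
          exact hz0 hab
        refine ⟨b, 0, 1, hb, ?_, Or.inr rfl⟩
        rw [hab, ha]
        simp
      · rcases P0.mem_or_inv_mem (b / a) with h | h
        · refine ⟨a, 1, ⟨b / a, h⟩, ha, ?_, Or.inl rfl⟩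
          have h1 : algebraMap K0 K a ≠ 0 := by
            rw [Ne, map_eq_zero]
            exact ha
          rw [hab]
          simp only [OneMemClass.coe_one, map_one, map_div₀]
          field_simp
        · by_cases hb : b = 0
          · refine ⟨a, 1, 0, ha, ?_, Or.inl rfl⟩
            rw [hab, hb]
            simp
          · rw [inv_div] at h
            refine ⟨b, ⟨a / b, h⟩, 1, hb, ?_, Or.inr rfl⟩
            have h1 : algebraMap K0 K b ≠ 0 := by
              rw [Ne, map_eq_zero]
              exact hb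
            rw [hab]
            simp only [OneMemClass.coe_one, map_one, map_div₀]
            field_simp
    obtain ⟨g, a, b, hg, hz, hab⟩ := hprim
    have hgK : algebraMap K0 K g ≠ 0 := by
      rw [Ne, map_eq_zero]
      exact hg
    obtain ⟨w, hw⟩ : ∃ w : QuadraticAlgebra P0 d 0, w = ⟨a, b⟩ := ⟨_, rfl⟩
    obtain ⟨w', hw'⟩ : ∃ w' : QuadraticAlgebra P0 d 0, w' = ⟨a, -b⟩ := ⟨_, rfl⟩
    have ew : e w = algebraMap K0 K a + algebraMap K0 K b * s := by rw [heq, hw]
    have ew' : e w' = algebraMap K0 K a - algebraMap K0 K b * s := by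
      rw [heq, hw']
      change algebraMap K0 K a + algebraMap K0 K (-(b : K0)) * s = _
      rw [map_neg]
      ring
    have pw : ψ w = φ0 a + φ0 b * t := by rw [hψ, hw]
    have pw' : ψ w' = φ0 a - φ0 b * t := by
      rw [hψ, hw']
      simp only [map_neg]
      ring
    have hC : ∀ x : P0, ∃ X : QuadraticAlgebra P0 d 0, e X = algebraMap K0 K x := by
      intro x
      refine ⟨⟨x, 0⟩, ?_⟩
      rw [heq]
      simp
    have hzw : z = algebraMap K0 K g * e w := by rw [hz, ew]
    have hew0 : e w ≠ 0 := by
      intro h0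
      rw [h0, mul_zero] at hzw
      exact hz0 hzw
    by_cases hpw : ψ w = 0
    · have hpw' : ψ w' ≠ 0 := by
        intro h0
        rw [pw] at hpw
        rw [pw'] at h0
        have h3 : 2 * φ0 a = 0 := by linear_combination hpw + h0
        have h4 : 2 * (φ0 b * t) = 0 := by linear_combination hpw - h0
        have h5 : φ0 a = 0 := by
          rcases mul_eq_zero.1 h3 with h | h
          · exact absurd h h2
          · exact h
        have h6 : φ0 b = 0 := by
          rcases mul_eq_zero.1 h4 with h | h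
          · exact absurd h h2
          · rcases mul_eq_zero.1 h with h | h
            · exact h
            · exact absurd h ht0
        rcases hab with rfl | rfl
        · rw [map_one] at h5
          exact one_ne_zero h5
        · rw [map_one] at h6
          exact one_ne_zero h6
      -- the norm
      obtain ⟨n, hn⟩ : ∃ n : K0, n = g * ((a : K0) ^ 2 - d * (b : K0) ^ 2) := ⟨_, rfl⟩
      have hzn : z * e w' = algebraMap K0 K n := by
        rw [hz, ew', hn]
        simp only [map_mul, map_sub, map_pow]
        rw [← hs]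
        ring
      have hew'0 : e w' ≠ 0 := by
        intro h0
        have : w' = 0 := hinj (by rw [h0, map_zero])
        rw [this, map_zero] at hpw'
        exact hpw' rfl
      have hn0 : n ≠ 0 := by
        rintro h0
        rw [h0, map_zero] at hzn
        rcases mul_eq_zero.1 hzn with h | h
        · exact hz0 h
        · exact hew'0 h
      have hnK : algebraMap K0 K n ≠ 0 := by
        rw [Ne, map_eq_zero]
        exact hn0
      rcases P0.mem_or_inv_mem n with h | h
      · obtain ⟨X, hX⟩ := hC ⟨n, h⟩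
        exact Or.inl ⟨X, w', hpw', by rw [hzn, hX]⟩
      · obtain ⟨X, hX⟩ := hC ⟨n⁻¹, h⟩
        refine Or.inr ⟨w' * X, 1, by rw [map_one]; exact one_ne_zero, ?_⟩
        rw [map_mul, hX, map_one, mul_one]
        simp only [map_inv₀]
        rw [← hzn]
        field_simp
    · rcases P0.mem_or_inv_mem g with h | h
      · obtain ⟨X, hX⟩ := hC ⟨g, h⟩
        refine Or.inl ⟨X * w, 1, by rw [map_one]; exact one_ne_zero, ?_⟩
        rw [map_mul, hX, map_one, mul_one]
        exact hzw
      · obtain ⟨X, hX⟩ := hC ⟨g⁻¹, h⟩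
        refine Or.inr ⟨X, w, hpw, ?_⟩
        rw [hX, hzw]
        simp only [map_inv₀]
        field_simp
  obtain ⟨P, φ, h3, h4⟩ := ext_loc e hinj ψ key
  refine ⟨P, φ, fun x => ?_, h4⟩
  obtain ⟨h5, h6⟩ := h3 ⟨x, 0⟩
  have h7 : e ⟨x, 0⟩ = algebraMap K0 K x := by
    rw [heq]
    simp
  have h8 : ψ ⟨x, 0⟩ = φ0 x := by
    rw [hψ]
    simp
  refine ⟨by rw [← h7]; exact h5, ?_⟩
  rw [← h8, ← h6]
  congr 1
  exact Subtype.ext h7.symm

/-- the ramified case -/
theorem ext_odd (P0 : ValuationSubring K0) (φ0 : P0 →+* F) (hloc : ∀ x : P0, φ0 x ≠ 0 → (x : K0)⁻¹ ∈ P0)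
    (s : K) (d : K0) (hs : s ^ 2 = algebraMap K0 K d)
    (hgen : ∀ z : K, ∃ a b : K0, z = algebraMap K0 K a + algebraMap K0 K b * s)
    (hodd : ∀ z : K0, P0.valuation d ≠ P0.valuation z ^ 2) :
    ∃ (P : ValuationSubring K) (φ : P →+* F), (∀ x : P0, ∃ hx : algebraMap K0 K x ∈ P, φ ⟨_, hx⟩ = φ0 x) ∧
      ∀ x : P, φ x ≠ 0 → (x : K)⁻¹ ∈ P := by
  classical
  have hm : ∀ x : K0, x ∈ P0 ↔ P0.valuation x ≤ 1 := fun x => (P0.valuation_le_one_iff x).symm
  have hsK : ∀ c : K0, algebraMap K0 K c ≠ s := by
    intro c hc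
    apply hodd c
    rw [← hc, ← map_pow] at hs
    rw [← (algebraMap K0 K).injective hs, map_pow]
  have huniq : ∀ a b a' b' : K0, algebraMap K0 K a + algebraMap K0 K b * s = algebraMap K0 K a' + algebraMap K0 K b' * s →
      a = a' ∧ b = b' := by
    intro a b a' b' h
    have hb : b = b' := by
      by_contra hne
      have h0 : b - b' ≠ 0 := sub_ne_zero.2 hne
      apply hsK ((a' - a) / (b - b'))
      have h1 : algebraMap K0 K (b - b') ≠ 0 := by
        rw [Ne, map_eq_zero]
        exact h0
      rw [map_div₀, div_eq_iff h1, map_sub, map_sub]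
      linear_combination -h
    refine ⟨?_, hb⟩
    rw [hb] at h
    exact (algebraMap K0 K).injective (by linear_combination h)
  have hne1 : ∀ a b : K0, b ≠ 0 → P0.valuation (b ^ 2 * d) ≠ P0.valuation a ^ 2 := by
    intro a b hb h
    apply hodd (a / b)
    have hVb : P0.valuation b ≠ 0 := (Valuation.ne_zero_iff _).2 hb
    rw [map_mul, map_pow] at h
    rw [map_div₀, div_pow, ← h]
    field_simp
  have hlt : ∀ b : K0, P0.valuation (b ^ 2 * d) ≤ 1 → P0.valuation (b ^ 2 * d) < 1 := by
    intro b hb
    by_cases h0 : b = 0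
    · rw [h0]
      simp
    · refine lt_of_le_of_ne hb fun h => hne1 1 b h0 ?_
      rw [h, map_one, one_pow]
  have hprod : ∀ b b' : K0, P0.valuation (b ^ 2 * d) ≤ 1 → P0.valuation (b' ^ 2 * d) ≤ 1 → P0.valuation (b * b' * d) < 1 := by
    intro b b' hb hb'
    have h1 := hlt b hb
    have h2 := hlt b' hb'
    by_contra hcon
    push Not at hcon
    have h3 : P0.valuation (b ^ 2 * d) * P0.valuation (b' ^ 2 * d) = P0.valuation (b * b' * d) * P0.valuation (b * b' * d) := by
      rw [← map_mul, ← map_mul]
      congr 1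
      ring
    have h4 : P0.valuation (b ^ 2 * d) * P0.valuation (b' ^ 2 * d) < 1 := mul_lt_one_of_lt_of_le h1 hb'
    rw [h3] at h4
    exact absurd h4 (not_lt.2 (one_le_mul hcon hcon))
  let S : Set K := {z | ∃ a b : K0, z = algebraMap K0 K a + algebraMap K0 K b * s ∧ P0.valuation a ≤ 1 ∧ P0.valuation (b ^ 2 * d) ≤ 1}
  -- inverses
  have hinv : ∀ a b : K0, 1 ≤ max (P0.valuation a ^ 2) (P0.valuation (b ^ 2 * d)) →
      (algebraMap K0 K a + algebraMap K0 K b * s)⁻¹ ∈ S := by
    intro a b hM
    obtain ⟨M, hMd⟩ : ∃ M, M = max (P0.valuation a ^ 2) (P0.valuation (b ^ 2 * d)) := ⟨_, rfl⟩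
    rw [← hMd] at hM
    have hM0 : 0 < M := lt_of_lt_of_le zero_lt_one hM
    have ha : P0.valuation a ^ 2 ≤ M := by rw [hMd]; exact le_max_left _ _
    have hb : P0.valuation (b ^ 2 * d) ≤ M := by rw [hMd]; exact le_max_right _ _
    obtain ⟨n, hn⟩ : ∃ n : K0, n = a ^ 2 - b ^ 2 * d := ⟨_, rfl⟩
    have hVn : P0.valuation n = M := by
      rw [hn, hMd]
      by_cases hb0 : b = 0
      · rw [hb0]
        simp
      · have h1 := hne1 a b hb0
        rw [← map_pow] at h1 ⊢
        rcases lt_or_gt_of_ne h1 with h | h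
        · rw [max_eq_left h.le]
          exact Valuation.map_sub_eq_of_lt_left _ h
        · rw [max_eq_right h.le]
          exact Valuation.map_sub_eq_of_lt_right _ h
    have hn0 : n ≠ 0 := by
      rintro rfl
      rw [map_zero] at hVn
      exact absurd hVn hM0.ne
    have hnK : algebraMap K0 K n ≠ 0 := by
      rw [Ne, map_eq_zero]
      exact hn0
    have hN : (algebraMap K0 K a + algebraMap K0 K b * s) * (algebraMap K0 K a - algebraMap K0 K b * s) = algebraMap K0 K n := by
      rw [hn]
      simp only [map_sub, map_mul, map_pow]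
      rw [← hs]
      ring
    have hz0 : algebraMap K0 K a + algebraMap K0 K b * s ≠ 0 := by
      intro h0
      rw [h0, zero_mul] at hN
      exact hnK hN.symm
    have hMM : M * M⁻¹ ^ 2 ≤ 1 := by
      have : M * M⁻¹ ^ 2 = M⁻¹ := by
        have := hM0.ne'
        field_simp
      rw [this]
      exact inv_le_one_of_one_le₀ hM
    refine ⟨a / n, -b / n, ?_, ?_, ?_⟩
    · refine inv_eq_of_mul_eq_one_right ?_
      rw [map_div₀, map_div₀, map_neg]
      have h3 : (algebraMap K0 K a + algebraMap K0 K b * s) * (algebraMap K0 K a / algebraMap K0 K n +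
          -algebraMap K0 K b / algebraMap K0 K n * s) =
          ((algebraMap K0 K a + algebraMap K0 K b * s) * (algebraMap K0 K a - algebraMap K0 K b * s)) / algebraMap K0 K n := by
        ring
      rw [h3, hN, div_self hnK]
    · have h4 : P0.valuation (a / n) ^ 2 ≤ 1 := by
        rw [map_div₀, hVn, div_eq_mul_inv, mul_pow]
        exact (mul_le_mul_left ha _).trans hMM
      exact (pow_le_one_iff two_ne_zero).1 h4
    · have h5 : (-b / n) ^ 2 * d = (b ^ 2 * d) * n⁻¹ ^ 2 := by
        field_simp
      rw [h5, map_mul, map_pow, map_inv₀, hVn]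
      exact (mul_le_mul_left hb _).trans hMM
  let P : ValuationSubring K :=
    { carrier := S
      zero_mem' := ⟨0, 0, by simp, by simp, by simp⟩
      one_mem' := ⟨1, 0, by simp, by simp, by simp⟩
      add_mem' := by
        rintro z z' ⟨a, b, rfl, ha, hb⟩ ⟨a', b', rfl, ha', hb'⟩
        refine ⟨a + a', b + b', by rw [map_add, map_add]; ring, Valuation.map_add_le _ ha ha', ?_⟩
        have h1 : (b + b') ^ 2 * d = b ^ 2 * d + (b * b' * d + b * b' * d) + b' ^ 2 * d := by ring
        rw [h1]
        have h2 := (hprod b b' hb hb').le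
        exact Valuation.map_add_le _ (Valuation.map_add_le _ hb (Valuation.map_add_le _ h2 h2)) hb'
      neg_mem' := by
        rintro z ⟨a, b, rfl, ha, hb⟩
        refine ⟨-a, -b, by rw [map_neg, map_neg]; ring, by rw [Valuation.map_neg]; exact ha, ?_⟩
        rw [neg_sq]
        exact hb
      mul_mem' := by
        rintro z z' ⟨a, b, rfl, ha, hb⟩ ⟨a', b', rfl, ha', hb'⟩
        refine ⟨a * a' + b * b' * d, a * b' + a' * b, ?_, ?_, ?_⟩
        · simp only [map_add, map_mul]
          rw [← hs]
          ring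
        · refine Valuation.map_add_le _ ?_ (hprod b b' hb hb').le
          rw [map_mul]
          exact mul_le_one' ha ha'
        · have h1 : (a * b' + a' * b) ^ 2 * d = a ^ 2 * (b' ^ 2 * d) + (a * a' * (b * b' * d) + a * a' * (b * b' * d)) + a' ^ 2 * (b ^ 2 * d) := by
            ring
          have h2 := (hprod b b' hb hb').le
          have h3 : P0.valuation (a * a' * (b * b' * d)) ≤ 1 := by
            rw [map_mul, map_mul]
            exact mul_le_one' (mul_le_one' ha ha') h2
          rw [h1]
          refine Valuation.map_add_le _ (Valuation.map_add_le _ ?_ (Valuation.map_add_le _ h3 h3)) ?_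
          · rw [map_mul, map_pow]
            exact mul_le_one' (pow_le_one' ha 2) hb'
          · rw [map_mul, map_pow]
            exact mul_le_one' (pow_le_one' ha' 2) hb
      mem_or_inv_mem' := by
        intro z
        obtain ⟨a, b, rfl⟩ := hgen z
        by_cases h : P0.valuation a ≤ 1 ∧ P0.valuation (b ^ 2 * d) ≤ 1
        · exact Or.inl ⟨a, b, rfl, h.1, h.2⟩
        · refine Or.inr (hinv a b ?_)
          rw [not_and_or] at h
          rcases h with h | h
          · refine le_max_of_le_left ?_
            exact one_le_pow₀ (not_le.1 h).le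
          · exact le_max_of_le_right (not_le.1 h).le }
  have hP : ∀ z : K, z ∈ P ↔ z ∈ S := fun z => Iff.rfl
  have hch : ∀ z : P, ∃ a b : K0, (z : K) = algebraMap K0 K a + algebraMap K0 K b * s ∧ P0.valuation a ≤ 1 ∧ P0.valuation (b ^ 2 * d) ≤ 1 :=
    fun z => z.2
  choose α β hαβ hα hβ using hch
  have hφ0 : ∀ x : P0, P0.valuation (x : K0) < 1 → φ0 x = 0 := by
    intro x hx
    by_contra hne
    have h1 := (hm _).1 (hloc x hne)
    rw [map_inv₀] at h1
    have h0 : P0.valuation (x : K0) ≠ 0 := by
      intro h0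
      have : (x : K0) = 0 := (Valuation.zero_iff _).1 h0
      have : x = 0 := Subtype.ext this
      rw [this, map_zero] at hne
      exact hne rfl
    have h2 : 1 ≤ P0.valuation (x : K0) := by
      have h3 : 0 < P0.valuation (x : K0) := zero_lt_iff.2 h0
      exact (inv_le_one₀ h3).1 h1
    exact absurd hx (not_lt.2 h2)
  have hwd : ∀ (z : P) (a b : K0), (z : K) = algebraMap K0 K a + algebraMap K0 K b * s → ∀ ha : a ∈ P0,
      φ0 ⟨α z, (hm _).2 (hα z)⟩ = φ0 ⟨a, ha⟩ := by
    intro z a b h ha
    have h1 := huniq _ _ _ _ ((hαβ z).symm.trans h)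
    congr 1
    exact Subtype.ext h1.1
  let φ : P →+* F :=
    { toFun := fun z => φ0 ⟨α z, (hm _).2 (hα z)⟩
      map_one' := by
        rw [hwd 1 1 0 (by simp) P0.one_mem]
        exact map_one φ0
      map_zero' := by
        rw [hwd 0 0 0 (by simp) P0.zero_mem]
        exact map_zero φ0
      map_add' := fun z z' => by
        have h1 : ((z + z' : P) : K) = algebraMap K0 K (α z + α z') + algebraMap K0 K (β z + β z') * s := by
          change (z : K) + (z' : K) = _
          rw [hαβ z, hαβ z', map_add, map_add]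
          ring
        rw [hwd _ _ _ h1 (P0.add_mem _ _ ((hm _).2 (hα z)) ((hm _).2 (hα z'))), ← map_add]
        rfl
      map_mul' := fun z z' => by
        have h0 := hprod (β z) (β z') (hβ z) (hβ z')
        have h1 : ((z * z' : P) : K) = algebraMap K0 K (α z * α z' + β z * β z' * d) +
            algebraMap K0 K (α z * β z' + α z' * β z) * s := by
          change (z : K) * (z' : K) = _
          rw [hαβ z, hαβ z']
          simp only [map_add, map_mul]
          rw [← hs]
          ring
        have h2 : β z * β z' * d ∈ P0 := (hm _).2 h0.le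
        have h3 : α z * α z' ∈ P0 := P0.mul_mem _ _ ((hm _).2 (hα z)) ((hm _).2 (hα z'))
        rw [hwd _ _ _ h1 (P0.add_mem _ _ h3 h2), ← map_mul]
        have h4 : φ0 ⟨β z * β z' * d, h2⟩ = 0 := hφ0 _ h0
        have h5 : (⟨α z * α z' + β z * β z' * d, P0.add_mem _ _ h3 h2⟩ : P0) =
            ⟨α z, (hm _).2 (hα z)⟩ * ⟨α z', (hm _).2 (hα z')⟩ + ⟨β z * β z' * d, h2⟩ := rfl
        rw [h5, map_add, h4, add_zero] }
  refine ⟨P, φ, fun x => ?_, fun x hx => ?_⟩
  · have hx : algebraMap K0 K x ∈ P := (hP _).2 ⟨x, 0, by simp, (hm _).1 x.2, by simp⟩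
    refine ⟨hx, ?_⟩
    exact hwd ⟨algebraMap K0 K x, hx⟩ x 0 (by simp) x.2
  · have h1 : φ0 ⟨α x, (hm _).2 (hα x)⟩ ≠ 0 := hx
    rw [hαβ x]
    refine hinv _ _ (le_max_of_le_left ?_)
    by_contra hcon
    push Not at hcon
    have h2 : P0.valuation (α x) < 1 := by
      by_contra h3
      push Not at h3
      exact absurd hcon (not_lt.2 (one_le_pow₀ h3))
    exact h1 (hφ0 _ h2)

end quadratic

end Pool.Agent.Helper79.MP
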