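import Mathlib

/-!
# Hensel's lemma in the completions of a number field
-/

set_option autoImplicit false

namespace Pool.Agent.Helper79.MP

open Polynomial NumberField IsDedekindDomain Metric

/-- Hensel's lemma in a complete normed field with the ultrametric inequality. -/
theorem hensel_normed {F : Type*} [NormedField F] [CompleteSpace F]
    (hu : ∀ x y : F, ‖x + y‖ ≤ max ‖x‖ ‖y‖) (g : F[X]) (hg : ∀ n, ‖g.coeff n‖ ≤ 1) (a : F)
    (ha : ‖a‖ ≤ 1) (h0 : ‖g.eval a‖ < 1) (h1 : ‖g.derivative.eval a‖ = 1) :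
    ∃ α : F, g.eval α = 0 ∧ ‖α - a‖ < 1 := by
  let R : Subring F :=
    { carrier := {x | ‖x‖ ≤ 1}
      zero_mem' := by
        rw [Set.mem_ofPred_eq, norm_zero]
        exact zero_le_one
      one_mem' := by
        rw [Set.mem_ofPred_eq, norm_one]
      add_mem' := fun {x y} hx hy => (hu x y).trans (max_le hx hy)
      neg_mem' := fun {x} hx => by
        rw [Set.mem_ofPred_eq, norm_neg]
        exact hx
      mul_mem' := fun {x y} hx hy => by
        rw [Set.mem_ofPred_eq, norm_mul]
        exact mul_le_one₀ hx (norm_nonneg y) hy }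
  have hR : ∀ x : F, x ∈ R ↔ ‖x‖ ≤ 1 := fun x => Iff.rfl
  have hsub : (↑g.coeffs : Set F) ⊆ R := by
    intro c hc
    obtain ⟨n, -, rfl⟩ := Polynomial.mem_coeffs_iff.1 (Finset.mem_coe.1 hc)
    exact hg n
  obtain ⟨G, hG⟩ : ∃ G : R[X], G.map R.subtype = g := ⟨g.toSubring R hsub, Polynomial.map_toSubring g R hsub⟩
  have hev : ∀ x : R, g.eval (x : F) = (G.eval x : R) := by
    intro x
    rw [← hG, eval_map]
    exact eval₂_at_apply R.subtype x
  have hev' : ∀ x : R, g.derivative.eval (x : F) = (G.derivative.eval x : R) := by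
    intro x
    rw [← hG, derivative_map, eval_map]
    exact eval₂_at_apply R.subtype x
  have hu' : ∀ x y : F, ‖x - y‖ ≤ max ‖x‖ ‖y‖ := by
    intro x y
    have := hu x (-y)
    rwa [norm_neg, ← sub_eq_add_neg] at this
  obtain ⟨r, hr⟩ : ∃ r : ℝ, r = ‖g.eval a‖ := ⟨_, rfl⟩
  have hr0 : 0 ≤ r := by rw [hr]; exact norm_nonneg _
  have hr1 : r < 1 := by rw [hr]; exact h0
  have hd0 : g.derivative.eval a ≠ 0 := by
    intro h
    rw [h, norm_zero] at h1
    exact zero_ne_one h1
  -- the Newton map
  let T : F → F := fun x => x - g.eval x / g.derivative.eval a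
  have hB : ∀ x ∈ closedBall a r, ‖x‖ ≤ 1 := by
    intro x hx
    rw [mem_closedBall, dist_eq_norm] at hx
    have : x = (x - a) + a := by ring
    rw [this]
    exact (hu _ _).trans (max_le (hx.trans hr1.le) ha)
  have hcon : ∀ x ∈ closedBall a r, ∀ y ∈ closedBall a r, ‖T x - T y‖ ≤ r * ‖x - y‖ := by
    intro x hx y hy
    have hx1 := hB x hx
    have hy1 := hB y hy
    rw [mem_closedBall, dist_eq_norm] at hx hy
    have hxy : ‖x - y‖ ≤ r := by
      have : x - y = (x - a) - (y - a) := by ring
      rw [this]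
      exact (hu' _ _).trans (max_le hx hy)
    obtain ⟨k, hk⟩ := G.binomExpansion ⟨y, hy1⟩ ⟨x - y, hxy.trans hr1.le⟩
    obtain ⟨k', hk'⟩ := G.derivative.evalSubFactor ⟨y, hy1⟩ ⟨a, ha⟩
    have e1 := congrArg (fun z : R => (z : F)) hk
    have e2 := congrArg (fun z : R => (z : F)) hk'
    simp only [Subring.coe_add, Subring.coe_mul, Subring.coe_pow, AddSubgroupClass.coe_sub] at e1 e2
    rw [← hev, ← hev, ← hev'] at e1
    rw [← hev', ← hev'] at e2
    simp only [Subring.coe_add] at e1
    have hxe : y + (x - y) = x := by ring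
    rw [hxe] at e1
    have e3 : T x - T y = -(((k' : F) * (y - a)) * (x - y) + (k : F) * (x - y) * (x - y)) / g.derivative.eval a := by
      have : T x - T y = (x - y) - (g.eval x - g.eval y) / g.derivative.eval a := by
        change (x - g.eval x / g.derivative.eval a) - (y - g.eval y / g.derivative.eval a) = _
        ring
      rw [this, e1]
      have e4 : g.derivative.eval y = g.derivative.eval a + (k' : F) * (y - a) := by
        linear_combination e2
      rw [e4]
      field_simp
      ring
    rw [e3, norm_div, h1, div_one, norm_neg]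
    refine (hu _ _).trans (max_le ?_ ?_)
    · rw [norm_mul, norm_mul]
      have h3 : ‖(k' : F)‖ * ‖y - a‖ ≤ 1 * r := mul_le_mul k'.2 hy (norm_nonneg _) zero_le_one
      rw [one_mul] at h3
      exact mul_le_mul_of_nonneg_right h3 (norm_nonneg _)
    · rw [norm_mul, norm_mul]
      have h3 : ‖(k : F)‖ * ‖x - y‖ ≤ 1 * r := mul_le_mul k.2 hxy (norm_nonneg _) zero_le_one
      rw [one_mul] at h3
      exact mul_le_mul_of_nonneg_right h3 (norm_nonneg _)
  have haB : a ∈ closedBall a r := mem_closedBall_self hr0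
  have hTa : ‖T a - a‖ ≤ r := by
    have : T a - a = -(g.eval a / g.derivative.eval a) := by
      change (a - g.eval a / g.derivative.eval a) - a = _
      ring
    rw [this, norm_neg, norm_div, h1, div_one, hr]
  have hmaps : Set.MapsTo T (closedBall a r) (closedBall a r) := by
    intro x hx
    have h2 := hcon x hx a haB
    rw [mem_closedBall, dist_eq_norm] at hx ⊢
    have : T x - a = (T x - T a) + (T a - a) := by ring
    rw [this]
    refine (hu _ _).trans (max_le (h2.trans ?_) hTa)
    calc r * ‖x - a‖ ≤ 1 * ‖x - a‖ := mul_le_mul_of_nonneg_right hr1.le (norm_nonneg _)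
      _ ≤ r := by rw [one_mul]; exact hx
  have hcw : ContractingWith ⟨r, hr0⟩ (hmaps.restrict T (closedBall a r) (closedBall a r)) := by
    refine ⟨?_, ?_⟩
    · have h9 : ((⟨r, hr0⟩ : NNReal) : ℝ) < ((1 : NNReal) : ℝ) := by
        rw [NNReal.coe_one]
        exact hr1
      exact NNReal.coe_lt_coe.1 h9
    · refine LipschitzWith.of_dist_le_mul fun x y => ?_
      have := hcon x.1 x.2 y.1 y.2
      rw [Subtype.dist_eq, Subtype.dist_eq, dist_eq_norm, dist_eq_norm]
      exact this
  obtain ⟨α, hα, hfix, -⟩ := hcw.exists_fixedPoint' isClosed_closedBall.isComplete hmaps haB (edist_ne_top _ _)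
  refine ⟨α, ?_, ?_⟩
  · have h3 : T α = α := hfix
    have h4 : α - g.eval α / g.derivative.eval a = α := h3
    have h5 : g.eval α / g.derivative.eval a = 0 := by linear_combination -h4
    rcases div_eq_zero_iff.1 h5 with h | h
    · exact h
    · exact absurd h hd0
  · rw [mem_closedBall, dist_eq_norm] at hα
    exact lt_of_le_of_lt hα hr1

section completion

variable {k : Type} [Field k] [NumberField k] (v : HeightOneSpectrum (𝓞 k))

theorem norm_le_iff79 (x y : v.adicCompletion k) : ‖x‖ ≤ ‖y‖ ↔ Valued.v x ≤ Valued.v y := by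
  rw [FinitePlace.norm_def, FinitePlace.norm_def, NNReal.coe_le_coe]
  exact (WithZeroMulInt.toNNReal_strictMono (HeightOneSpectrum.one_lt_absNorm_nnreal v)).le_iff_le

theorem norm_one_le_iff79 (x : v.adicCompletion k) : ‖x‖ ≤ 1 ↔ Valued.v x ≤ 1 := by
  have := norm_le_iff79 v x 1
  rwa [norm_one, map_one] at this

theorem norm_lt_one_iff79 (x : v.adicCompletion k) : ‖x‖ < 1 ↔ Valued.v x < 1 := by
  have := norm_le_iff79 v 1 x
  rw [norm_one, map_one] at this
  rw [← not_le, ← not_le, this]

theorem norm_one_iff79 (x : v.adicCompletion k) : ‖x‖ = 1 ↔ Valued.v x = 1 := by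
  rw [le_antisymm_iff, le_antisymm_iff, norm_one_le_iff79]
  refine and_congr_right fun _ => ?_
  rw [← not_lt, norm_lt_one_iff79, not_lt]

/-- **Hensel's lemma** in the completion of a number field. -/
theorem hens (g : (v.adicCompletion k)[X]) (hg : ∀ n, Valued.v (g.coeff n) ≤ 1)
    (a : v.adicCompletion k) (ha : Valued.v a ≤ 1) (h0 : Valued.v (g.eval a) < 1)
    (h1 : Valued.v (g.derivative.eval a) = 1) :
    ∃ α : v.adicCompletion k, g.eval α = 0 ∧ Valued.v (α - a) < 1 := by
  have hu : ∀ x y : v.adicCompletion k, ‖x + y‖ ≤ max ‖x‖ ‖y‖ := by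
    intro x y
    rcases le_total (Valued.v x : WithZero (Multiplicative ℤ)) (Valued.v y) with h | h
    · rw [max_eq_right ((norm_le_iff79 v x y).2 h), norm_le_iff79]
      exact Valued.v.map_add_le h le_rfl
    · rw [max_eq_left ((norm_le_iff79 v y x).2 h), norm_le_iff79]
      exact Valued.v.map_add_le le_rfl h
  obtain ⟨α, h2, h3⟩ := hensel_normed hu g (fun n => (norm_one_le_iff79 v _).2 (hg n)) a
    ((norm_one_le_iff79 v _).2 ha) ((norm_lt_one_iff79 v _).2 h0) ((norm_one_iff79 v _).2 h1)
  exact ⟨α, h2, (norm_lt_one_iff79 v _).1 h3⟩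

theorem valued_algebraMap79 (x : k) : Valued.v (algebraMap k (v.adicCompletion k) x) = v.valuation k x :=
  HeightOneSpectrum.valuedAdicCompletion_eq_valuation' v x

/-- Hensel's lemma for a polynomial over the number field. -/
theorem hens_k (g : k[X]) (hg : ∀ n, v.valuation k (g.coeff n) ≤ 1) (a : k)
    (ha : v.valuation k a ≤ 1) (h0 : v.valuation k (g.eval a) < 1)
    (h1 : v.valuation k (g.derivative.eval a) = 1) :
    ∃ α : v.adicCompletion k, aeval α g = 0 ∧ Valued.v (α - algebraMap k (v.adicCompletion k) a) < 1 := by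
  obtain ⟨α, h2, h3⟩ := hens v (g.map (algebraMap k (v.adicCompletion k))) (fun n => by
    rw [coeff_map, valued_algebraMap79]
    exact hg n) (algebraMap k (v.adicCompletion k) a) (by
    rw [valued_algebraMap79]
    exact ha) (by
    rw [eval_map_algebraMap, aeval_algebraMap_apply, valued_algebraMap79, coe_aeval_eq_eval]
    exact h0) (by
    rw [derivative_map, eval_map_algebraMap, aeval_algebraMap_apply, valued_algebraMap79, coe_aeval_eq_eval]
    exact h1)
  refine ⟨α, ?_, h3⟩
  rwa [eval_map_algebraMap] at h2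

end completion

end Pool.Agent.Helper79.MP
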