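import Pool.Agent.Helper97.MP.Defs
import Pool.Agent.Helper79.MP.Ext

/-!
# MP, blocks LP and L2: points on the twists
-/

set_option autoImplicit false

namespace Pool.Agent.MPF

open Polynomial
open Pool.Agent.Helper79.MP

private theorem two_ne79 {k F : Type} [Field k] [Field F] [CharZero k] [Algebra k F] : (2 : F) ≠ 0 := by
  have h : algebraMap k F 2 ≠ 0 := by
    rw [Ne, map_eq_zero]
    exact two_ne_zero
  rwa [map_ofNat] at h

private theorem gen79 {K0 : Type} [Field K0] (e : K0) (z : AdjoinRoot (X ^ 2 - C e : K0[X])) :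
    ∃ a b : K0, z = algebraMap K0 _ a + algebraMap K0 _ b * AdjoinRoot.root (X ^ 2 - C e) := by
  have hsq : AdjoinRoot.root (X ^ 2 - C e : K0[X]) ^ 2 = algebraMap K0 _ e := by
    have h := AdjoinRoot.eval₂_root (X ^ 2 - C e : K0[X])
    rw [eval₂_sub, eval₂_pow, eval₂_X, eval₂_C, sub_eq_zero] at h
    exact h
  have hz : z ∈ (Algebra.adjoin K0 {AdjoinRoot.root (X ^ 2 - C e : K0[X])} : Subalgebra K0 _) := by
    rw [AdjoinRoot.adjoinRoot_eq_top]
    exact Algebra.mem_top
  induction hz using Algebra.adjoin_induction with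
  | mem x hx =>
    rw [Set.mem_singleton_iff] at hx
    exact ⟨0, 1, by rw [hx, map_zero, map_one]; ring⟩
  | algebraMap r => exact ⟨r, 0, by rw [map_zero]; ring⟩
  | add x y _ _ hx hy =>
    obtain ⟨a, b, rfl⟩ := hx
    obtain ⟨a', b', rfl⟩ := hy
    exact ⟨a + a', b + b', by rw [map_add, map_add]; ring⟩
  | mul x y _ _ hx hy =>
    obtain ⟨a, b, rfl⟩ := hx
    obtain ⟨a', b', rfl⟩ := hy
    refine ⟨a * a' + b * b' * e, a * b' + a' * b, ?_⟩
    simp only [map_add, map_mul]
    rw [← hsq]
    ring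

private theorem quad79 {K0 : Type} [Field K0] (e : K0) (he : ¬ IsSquare e) :
    ∃ (K : Type) (_ : Field K) (_ : Algebra K0 K) (y : K), y ^ 2 = algebraMap K0 K e ∧
      (∀ x : K, ∃ a b : K0, x = algebraMap K0 K a + algebraMap K0 K b * y) ∧
      ∀ a : K0, algebraMap K0 K a ≠ y := by
  have hirr : Irreducible (X ^ 2 - C e : K0[X]) := by
    refine X_pow_sub_C_irreducible_of_prime Nat.prime_two ?_
    intro b hb
    exact he ⟨b, by rw [← hb, pow_two]⟩
  have hfact : Fact (Irreducible (X ^ 2 - C e : K0[X])) := ⟨hirr⟩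
  have hsq : AdjoinRoot.root (X ^ 2 - C e : K0[X]) ^ 2 = algebraMap K0 _ e := by
    have h := AdjoinRoot.eval₂_root (X ^ 2 - C e : K0[X])
    rw [eval₂_sub, eval₂_pow, eval₂_X, eval₂_C, sub_eq_zero] at h
    exact h
  refine ⟨AdjoinRoot (X ^ 2 - C e : K0[X]), inferInstance, inferInstance, AdjoinRoot.root _, hsq,
    gen79 e, ?_⟩
  intro a ha
  rw [← ha, ← map_pow] at hsq
  exact he ⟨a, by rw [← (algebraMap K0 _).injective hsq, pow_two]⟩

/-- **BLOCK LP** -/
theorem lp : StmtLP := by
  classical
  intro k K₀ F _ _ _ _ _ _ h c hh hc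
  have h2 : (2 : F) ≠ 0 := two_ne79 (k := k)
  constructor
  · rintro ⟨K, _, _, _, _, y, hy, -, P', ψ, hψ⟩
    obtain ⟨P1, ψ1, h3, h4⟩ := ext_local P' ψ
    -- the restriction to `K₀`
    let P : ValuationSubring K₀ := P1.comap (algebraMap K₀ K)
    have hP : ∀ x : K₀, x ∈ P ↔ algebraMap K₀ K x ∈ P1 := fun x => Iff.rfl
    let φ : P →+* F :=
      { toFun := fun x => ψ1 ⟨algebraMap K₀ K x, x.2⟩
        map_one' := by
          have : (⟨algebraMap K₀ K ((1 : P) : K₀), (1 : P).2⟩ : P1) = 1 := Subtype.ext (map_one _)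
          rw [this, map_one]
        map_zero' := by
          have : (⟨algebraMap K₀ K ((0 : P) : K₀), (0 : P).2⟩ : P1) = 0 := Subtype.ext (map_zero _)
          rw [this, map_zero]
        map_add' := fun x y => by
          rw [← map_add]
          congr 1
          exact Subtype.ext (map_add _ _ _)
        map_mul' := fun x y => by
          rw [← map_mul]
          congr 1
          exact Subtype.ext (map_mul _ _ _) }
    have hφ : ∀ x : P, φ x = ψ1 ⟨algebraMap K₀ K x, x.2⟩ := fun _ => rfl
    have hconst : ∀ a : k, ∃ h : algebraMap k K₀ a ∈ P, φ ⟨algebraMap k K₀ a, h⟩ = algebraMap k F a := by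
      intro a
      obtain ⟨h5, h6⟩ := hψ a
      obtain ⟨h7, h8⟩ := h3 ⟨_, h5⟩
      have h9 : algebraMap K₀ K (algebraMap k K₀ a) = algebraMap k K a := (IsScalarTower.algebraMap_apply k K₀ K a).symm
      have h10 : algebraMap k K₀ a ∈ P := by
        rw [hP, h9]
        exact h7
      refine ⟨h10, ?_⟩
      rw [hφ, ← h6, ← h8]
      congr 1
      exact Subtype.ext h9
    have hloc : ∀ x : P, φ x = 0 ∨ (x : K₀)⁻¹ ∈ P := by
      intro x
      by_cases h0 : φ x = 0
      · exact Or.inl h0
      · refine Or.inr ?_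
        have := h4 _ h0
        rw [hP, map_inv₀]
        exact this
    refine ⟨P, φ, hconst, hloc, ?_⟩
    by_cases hodd : ∀ z : K₀, P.valuation h ≠ P.valuation z ^ 2
    · exact Or.inl hodd
    · push Not at hodd
      obtain ⟨z, hz⟩ := hodd
      have hz0 : z ≠ 0 := by
        rintro rfl
        rw [map_zero, zero_pow two_ne_zero] at hz
        exact hh ((Valuation.zero_iff _).1 hz)
      have hVz : P.valuation z ≠ 0 := (Valuation.ne_zero_iff _).2 hz0
      have hg1 : P.valuation (h / z ^ 2) = 1 := by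
        rw [map_div₀, map_pow, hz]
        exact div_self (pow_ne_zero 2 hVz)
      have hg : h / z ^ 2 ∈ P := (P.valuation_le_one_iff _).1 hg1.le
      have hg' : (h / z ^ 2)⁻¹ ∈ P := (P.valuation_le_one_iff _).1 (by rw [map_inv₀, hg1, inv_one])
      have hgne : h / z ^ 2 ≠ 0 := div_ne_zero hh (pow_ne_zero 2 hz0)
      refine Or.inr ⟨z, ⟨h / z ^ 2, hg⟩, hz0, ?_, ?_, ?_⟩
      · change h = h / z ^ 2 * z ^ 2
        field_simp
      · intro h0
        have h5 : φ ⟨h / z ^ 2, hg⟩ * φ ⟨(h / z ^ 2)⁻¹, hg'⟩ = 1 := by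
          rw [← map_mul, ← map_one φ]
          congr 1
          exact Subtype.ext (mul_inv_cancel₀ hgne)
        rw [h0, zero_mul] at h5
        exact zero_ne_one h5
      · -- the square root
        obtain ⟨h5, h6⟩ := hconst c
        have hzK : algebraMap K₀ K z ≠ 0 := by
          rw [Ne, map_eq_zero]
          exact hz0
        have hw : (y / algebraMap K₀ K z) ^ 2 = algebraMap K₀ K (algebraMap k K₀ c * (h / z ^ 2)) := by
          rw [div_pow, hy, map_mul, map_div₀, map_pow, ← IsScalarTower.algebraMap_apply k K₀ K]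
          field_simp
        have hwP : y / algebraMap K₀ K z ∈ P1 := by
          have h7 : (y / algebraMap K₀ K z) ^ 2 ∈ P1 := by
            rw [hw]
            exact P.mul_mem _ _ h5 hg
          rw [← ValuationSubring.valuation_le_one_iff] at h7 ⊢
          rw [map_pow] at h7
          exact (pow_le_one_iff two_ne_zero).1 h7
        refine ⟨ψ1 ⟨_, hwP⟩, ?_⟩
        rw [← h6, ← map_mul, ← map_mul, hφ]
        congr 1
        refine Subtype.ext ?_
        change algebraMap K₀ K (algebraMap k K₀ c * (h / z ^ 2)) = y / algebraMap K₀ K z * (y / algebraMap K₀ K z)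
        rw [← hw, pow_two]
  · rintro ⟨P, φ, hconst, hloc, hcase⟩
    have hloc' : ∀ x : P, φ x ≠ 0 → (x : K₀)⁻¹ ∈ P := fun x hx => (hloc x).resolve_left hx
    have hcK : algebraMap k K₀ c ≠ 0 := by
      rw [Ne, map_eq_zero]
      exact hc
    have hcV : P.valuation (algebraMap k K₀ c) = 1 := by
      have h5 := (P.valuation_le_one_iff _).2 (hconst c).1
      have h6 := (P.valuation_le_one_iff _).2 (hconst c⁻¹).1
      rw [map_inv₀, map_inv₀] at h6
      refine le_antisymm h5 ?_
      exact (inv_le_one₀ (zero_lt_iff.2 ((Valuation.ne_zero_iff _).2 hcK))).1 h6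
    by_cases hsq : IsSquare (algebraMap k K₀ c * h)
    · -- the twist is `Y`
      obtain ⟨w, hw⟩ := hsq
      refine ⟨K₀, inferInstance, inferInstance, Algebra.id K₀, inferInstance, w, ?_, ?_, P, φ, hconst⟩
      · change w ^ 2 = algebraMap k K₀ c * h
        rw [hw, pow_two]
      · rw [eq_top_iff]
        intro x _
        exact (IntermediateField.adjoin K₀ {w}).algebraMap_mem x
    · obtain ⟨K, _, _, y, hy, hgen, hyK⟩ := quad79 _ hsq
      let _ : Algebra k K := ((algebraMap K₀ K).comp (algebraMap k K₀)).toAlgebra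
      have hcomp : ∀ a : k, algebraMap k K a = algebraMap K₀ K (algebraMap k K₀ a) := fun _ => rfl
      have hex : ∃ (P' : ValuationSubring K) (ψ : P' →+* F),
          ∀ x : P, ∃ hx : algebraMap K₀ K x ∈ P', ψ ⟨_, hx⟩ = φ x := by
        rcases hcase with hodd | ⟨z, g, hz, hg, hg0, r, hr⟩
        · obtain ⟨P', ψ, h5, -⟩ := ext_odd P φ hloc' y (algebraMap k K₀ c * h) hy hgen (by
            intro z
            rw [map_mul, hcV, one_mul]
            exact hodd z)
          exact ⟨P', ψ, h5⟩
        · have hzK : algebraMap K₀ K z ≠ 0 := by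
            rw [Ne, map_eq_zero]
            exact hz
          obtain ⟨h6, h7⟩ := hconst c
          have hr0 : r ≠ 0 := by
            rintro rfl
            rw [mul_zero] at hr
            rcases mul_eq_zero.1 hr with h | h
            · rw [map_eq_zero] at h
              exact hc h
            · exact hg0 h
          have hy' : (y / algebraMap K₀ K z) ^ 2 = algebraMap K₀ K ((⟨algebraMap k K₀ c, h6⟩ * g : P) : K₀) := by
            have h11 : algebraMap k K₀ c * h = algebraMap k K₀ c * (g : K₀) * z ^ 2 := by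
              rw [hg]
              ring
            rw [div_pow, hy, h11]
            change _ = algebraMap K₀ K (algebraMap k K₀ c * (g : K₀))
            rw [map_mul _ _ (z ^ 2), map_pow]
            field_simp
          have hgen' : ∀ x : K, ∃ a b : K₀, x = algebraMap K₀ K a + algebraMap K₀ K b * (y / algebraMap K₀ K z) := by
            intro x
            obtain ⟨a, b, hab⟩ := hgen x
            refine ⟨a, b * z, ?_⟩
            rw [hab, map_mul]
            field_simp
          obtain ⟨P', ψ, h5, -⟩ := ext_even P φ (y / algebraMap K₀ K z) (⟨algebraMap k K₀ c, h6⟩ * g) hy' hgen' (by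
            intro a ha
            apply hyK (a * z)
            rw [map_mul, ha]
            field_simp) r (by
            rw [map_mul, h7, hr, pow_two]) hr0 h2
          exact ⟨P', ψ, h5⟩
      obtain ⟨P', ψ, h5⟩ := hex
      refine ⟨K, inferInstance, inferInstance, inferInstance,
        IsScalarTower.of_algebraMap_eq' rfl, y, ?_, ?_, P', ψ, ?_⟩
      · rw [hy, map_mul, hcomp]
      · rw [eq_top_iff]
        intro x _
        obtain ⟨a, b, rfl⟩ := hgen x
        refine add_mem ((IntermediateField.adjoin K₀ {y}).algebraMap_mem a) (mul_mem ((IntermediateField.adjoin K₀ {y}).algebraMap_mem b) ?_)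
        exact IntermediateField.subset_adjoin _ _ rfl
      · intro a
        obtain ⟨h6, h7⟩ := hconst a
        obtain ⟨h8, h9⟩ := h5 ⟨_, h6⟩
        refine ⟨h8, ?_⟩
        rw [← h7, ← h9]
        rfl

/-- **BLOCK L2** -/
theorem l2 : StmtL2 := by
  intro k K₀ F _ _ _ _ _ _ h c c₀ hh hc hc₀ hsq hT
  rw [lp k K₀ F h c₀ hh hc₀] at hT
  rw [lp k K₀ F h c hh hc]
  obtain ⟨P, φ, h1, h2, h3⟩ := hT
  refine ⟨P, φ, h1, h2, h3.imp id ?_⟩
  rintro ⟨z, g, hz, hg, hg0, hr⟩
  refine ⟨z, g, hz, hg, hg0, ?_⟩
  have h4 : algebraMap k F c * φ g = algebraMap k F (c₀⁻¹ * c) * (algebraMap k F c₀ * φ g) := by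
    rw [← mul_assoc, ← map_mul]
    congr 2
    field_simp
  rw [h4]
  exact hsq.mul hr

end Pool.Agent.MPF
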